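import Pool.Agent.H99.KR.Defs

/-! Sets of vertices of pairwise distance at least `4`. -/

namespace Pool.Agent.H99.KR

open Finset Classical

lemma exists_spread3 {X : Type*} [Fintype X] (H : SimpleGraph X) (Δ : ℕ)
    (hdeg : ∀ x, (univ.filter (H.Adj x)).card ≤ Δ) (ℓ : ℕ)
    (hX : MD Δ * ℓ ≤ Fintype.card X) :
    ∃ P : Finset X, P.card = ℓ ∧ ∀ p ∈ P, ∀ p' ∈ P, p ≠ p' → ¬ H.Adj p p' ∧
      (∀ x, ¬ (H.Adj p x ∧ H.Adj x p')) ∧ ∀ x y, ¬ (H.Adj p x ∧ H.Adj x y ∧ H.Adj y p') := by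
  induction ℓ with
  | zero => exact ⟨∅, by simp, by simp⟩
  | succ ℓ ih =>
    have hMD : 1 ≤ MD Δ := by unfold MD; omega
    obtain ⟨P, hPc, hP⟩ := ih (le_trans (Nat.mul_le_mul_left _ (Nat.le_succ _)) hX)
    obtain ⟨N, hN⟩ : ∃ N : X → Finset X, N = fun y => univ.filter (H.Adj y) := ⟨_, rfl⟩
    have hNm : ∀ x y, y ∈ N x ↔ H.Adj x y := by intro x y; rw [hN]; simp
    have hNc : ∀ x, (N x).card ≤ Δ := by intro x; rw [hN]; exact hdeg x
    obtain ⟨N2, hN2⟩ : ∃ N2 : X → Finset X, N2 = fun y => (N y).biUnion N := ⟨_, rfl⟩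
    have hN2m : ∀ x y, y ∈ N2 x ↔ ∃ z, H.Adj x z ∧ H.Adj z y := by
      intro x y; rw [hN2]; simp only [mem_biUnion, hNm]
    have hN2c : ∀ x, (N2 x).card ≤ Δ ^ 2 := by
      intro x; rw [hN2]
      refine card_biUnion_le.trans ((sum_le_sum fun y _ => hNc y).trans ?_)
      rw [sum_const, smul_eq_mul, pow_two]
      exact Nat.mul_le_mul_right _ (hNc x)
    obtain ⟨N3, hN3⟩ : ∃ N3 : X → Finset X, N3 = fun y => (N y).biUnion N2 := ⟨_, rfl⟩
    have hN3m : ∀ x y, y ∈ N3 x ↔ ∃ z, H.Adj x z ∧ ∃ z', H.Adj z z' ∧ H.Adj z' y := by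
      intro x y; rw [hN3]; simp only [mem_biUnion, hNm, hN2m]
    have hN3c : ∀ x, (N3 x).card ≤ Δ ^ 3 := by
      intro x; rw [hN3]
      refine card_biUnion_le.trans ((sum_le_sum fun y _ => hN2c y).trans ?_)
      rw [sum_const, smul_eq_mul]
      calc (N x).card * Δ ^ 2 ≤ Δ * Δ ^ 2 := Nat.mul_le_mul_right _ (hNc x)
        _ = Δ ^ 3 := by ring
    obtain ⟨Z, hZ⟩ : ∃ Z : X → Finset X, Z = fun p => insert p (N p ∪ (N2 p ∪ N3 p)) := ⟨_, rfl⟩
    have hZc : ∀ p, (Z p).card ≤ MD Δ := by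
      intro p
      rw [hZ]
      refine (card_insert_le _ _).trans ?_
      have h1 := card_union_le (N p) (N2 p ∪ N3 p)
      have h2 := card_union_le (N2 p) (N3 p)
      have h3 := hNc p
      have h4 := hN2c p
      have h5 := hN3c p
      unfold MD
      omega
    have hU : (P.biUnion Z).card < Fintype.card X := by
      refine lt_of_le_of_lt (card_biUnion_le.trans (sum_le_sum fun p _ => hZc p)) ?_
      rw [sum_const, smul_eq_mul, hPc]
      nlinarith
    obtain ⟨x, hx⟩ : ∃ x, x ∉ P.biUnion Z := by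
      by_contra hcon
      push Not at hcon
      have : P.biUnion Z = univ := eq_univ_of_forall hcon
      rw [this, card_univ] at hU
      exact lt_irrefl _ hU
    have hx1 : ∀ p ∈ P, x ≠ p ∧ ¬ H.Adj p x ∧ (∀ y, ¬ (H.Adj p y ∧ H.Adj y x)) ∧
        ∀ y z, ¬ (H.Adj p y ∧ H.Adj y z ∧ H.Adj z x) := by
      intro p hp
      have h1 : x ∉ Z p := fun h => hx (mem_biUnion.mpr ⟨p, hp, h⟩)
      rw [hZ] at h1
      simp only [mem_insert, mem_union, not_or, hNm, hN2m, hN3m] at h1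
      refine ⟨h1.1, h1.2.1, fun y hy => h1.2.2.1 ⟨y, hy⟩, fun y z hy => h1.2.2.2
        ⟨y, hy.1, z, hy.2⟩⟩
    refine ⟨insert x P, ?_, ?_⟩
    · rw [card_insert_of_notMem (fun h => (hx1 x h).1 rfl), hPc]
    · intro p hp p' hp' hne
      rw [mem_insert] at hp hp'
      rcases hp with rfl | hp
      · rcases hp' with rfl | hp'
        · exact absurd rfl hne
        · have h1 := hx1 p' hp'
          exact ⟨fun h => h1.2.1 h.symm, fun y hy => h1.2.2.1 y ⟨hy.2.symm, hy.1.symm⟩,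
            fun y z hy => h1.2.2.2 z y ⟨hy.2.2.symm, hy.2.1.symm, hy.1.symm⟩⟩
      · rcases hp' with rfl | hp'
        · have h1 := hx1 p hp
          exact ⟨h1.2.1, h1.2.2.1, h1.2.2.2⟩
        · exact hP p hp p' hp' hne

/-- a bijection of `P` onto `L` -/
lemma exists_place {α X : Type*} [Nonempty α] (P : Finset X) (L : Finset α)
    (hPc : P.card = L.card) : ∃ ψ : X → α, (∀ p ∈ P, ψ p ∈ L) ∧ Set.InjOn ψ P ∧
      P.image ψ = L := by
  have e := P.equivOfCardEq hPc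
  obtain ⟨a⟩ := ‹Nonempty α›
  refine ⟨fun p => if h : p ∈ P then (e ⟨p, h⟩ : α) else a, ?_, ?_, ?_⟩
  · intro p hp
    simp only [hp, dite_true]
    exact (e ⟨p, hp⟩).2
  · intro x hx y hy hxy
    rw [mem_coe] at hx hy
    simp only [hx, hy, dite_true] at hxy
    have := e.injective (Subtype.ext hxy)
    simpa using this
  · ext y
    rw [mem_image]
    constructor
    · rintro ⟨p, hp, rfl⟩
      simp only [hp, dite_true]
      exact (e ⟨p, hp⟩).2
    · intro hy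
      refine ⟨(e.symm ⟨y, hy⟩ : X), (e.symm ⟨y, hy⟩).2, ?_⟩
      simp

end Pool.Agent.H99.KR
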