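import Pool.Agent.H99.KR.Rich
import Pool.Agent.H99.KR.Spread

/-! Embedding the neighbourhoods of the prescribed vertices. -/

namespace Pool.Agent.H99.KR

open Finset Classical Pool.Agent.H21.Poly Pool.Agent.H21.Tile

section hist

variable {α : Type*} {n : ℕ} (H : SimpleGraph (Fin n))

lemma hist_congr {S : Finset (Fin n)} {t t' : Fin n → ℕ} {φ φ' : Fin n → α} (v : Fin n)
    (h : ∀ u ∈ S, H.Adj v u → t u = t' u ∧ φ u = φ' u) : hist H S t φ v = hist H S t' φ' v := by
  unfold hist
  apply image_congr
  intro u hu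
  rw [mem_coe, mem_filter] at hu
  obtain ⟨h1, h2⟩ := h u hu.1 hu.2
  simp only [h1, h2]

lemma hist_insert_adj {S : Finset (Fin n)} {t : Fin n → ℕ} {φ : Fin n → α} {v x : Fin n}
    (hx : x ∉ S) (hvx : H.Adj v x) (i : ℕ) (z : α) :
    hist H (insert x S) (Function.update t x i) (Function.update φ x z) v =
      insert (i, z) (hist H S t φ v) := by
  have h1 : hist H S (Function.update t x i) (Function.update φ x z) v = hist H S t φ v := by
    apply hist_congr
    intro u hu _
    have hne : u ≠ x := fun h => hx (h ▸ hu)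
    rw [Function.update_of_ne hne, Function.update_of_ne hne]
    exact ⟨rfl, rfl⟩
  rw [← h1]
  unfold hist
  rw [filter_insert, if_pos hvx, image_insert, Function.update_self, Function.update_self]

lemma hist_insert_nadj {S : Finset (Fin n)} {t : Fin n → ℕ} {φ : Fin n → α} {v x : Fin n}
    (hx : x ∉ S) (hvx : ¬ H.Adj v x) (i : ℕ) (z : α) :
    hist H (insert x S) (Function.update t x i) (Function.update φ x z) v = hist H S t φ v := by
  have h1 : hist H S (Function.update t x i) (Function.update φ x z) v = hist H S t φ v := by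
    apply hist_congr
    intro u hu _
    have hne : u ≠ x := fun h => hx (h ▸ hu)
    rw [Function.update_of_ne hne, Function.update_of_ne hne]
    exact ⟨rfl, rfl⟩
  rw [← h1]
  unfold hist
  rw [filter_insert, if_neg hvx]

end hist

theorem pre_embed {α : Type*} [Nonempty α] {k : ℕ} (col : α → α → Fin k)
    (hsymm : ∀ a b, col a b = col b a) (w : α → ℝ) (hw0 : ∀ x, 0 ≤ w x) (hw1 : ∀ x, w x ≤ 1)
    (Δ b : ℕ) (β ρ η M0 : ℝ) (A : ℕ → Finset α) (c : Fin k) (T : Finset ℕ)
    (hgood : Good col w c A β ρ T b Δ ∅) (hM0 : M0 = mu w (A 0)) (hM0pos : 0 < M0) (hη : 0 < η)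
    (hρ : 0 ≤ ρ) (hΔρ : Δ * ρ ≤ η / 4)
    {n : ℕ} (H : SimpleGraph (Fin n)) (hdeg : ∀ x, (univ.filter (H.Adj x)).card ≤ Δ)
    (Pp : Finset (Fin n)) (hP : ∀ p ∈ Pp, ∀ p' ∈ Pp, p ≠ p' → ¬ H.Adj p p' ∧
      (∀ x, ¬ (H.Adj p x ∧ H.Adj x p')) ∧ ∀ x y, ¬ (H.Adj p x ∧ H.Adj x y ∧ H.Adj y p'))
    (ψ : Fin n → α) (hψ : Set.InjOn ψ Pp) (hψw : ∀ p ∈ Pp, w (ψ p) = 0)
    (hrich : ∀ p ∈ Pp, Rich col w c η M0 Δ ((A 0).filter (fun y => col (ψ p) y = c)))
    (U : Finset α) (hsize : (U.card : ℝ) + n ≤ η / 2 * M0)
    (N S0 : Finset (Fin n)) (hN : N = Pp.biUnion (fun p => univ.filter (H.Adj p)))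
    (hS0 : S0 = Pp ∪ N) :
    ∃ φ0 : Fin n → α, (∀ p ∈ Pp, φ0 p = ψ p) ∧ Set.InjOn φ0 S0 ∧
      (∀ x ∈ N, φ0 x ∈ A 0 ∧ w (φ0 x) ≠ 0 ∧ φ0 x ∉ U) ∧
      (∀ u ∈ S0, ∀ v ∈ S0, H.Adj u v → col (φ0 u) (φ0 v) = c) ∧
      ∀ v ∉ S0, Good col w c A β ρ T b (Δ - (S0.filter (H.Adj v)).card)
        (hist H S0 (fun _ => 0) φ0 v) := by
  have hNm : ∀ x, x ∈ N ↔ ∃ p ∈ Pp, H.Adj p x := by
    intro x; rw [hN]; simp
  have hNP : ∀ x ∈ N, x ∉ Pp := by
    intro x hx hxP
    obtain ⟨p, hp, hpx⟩ := (hNm x).mp hx
    exact (hP p hp x hxP hpx.ne).1 hpx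
  have hS0N : ∀ v, v ∉ S0 → v ∉ N := by
    intro v hv h; exact hv (by rw [hS0]; exact mem_union_right _ h)
  have hlt : ∀ (S : Finset (Fin n)) (v x : Fin n), x ∉ S → H.Adj v x →
      (S.filter (H.Adj v)).card + 1 ≤ Δ := by
    intro S v x hx hvx
    have h1 : insert x (S.filter (H.Adj v)) ⊆ univ.filter (H.Adj v) := by
      intro y hy
      rw [mem_insert] at hy
      rcases hy with rfl | hy
      · exact mem_filter.mpr ⟨mem_univ _, hvx⟩
      · exact mem_filter.mpr ⟨mem_univ _, (mem_filter.mp hy).2⟩
    have h2 := card_le_card h1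
    rw [card_insert_of_notMem (fun h => hx (mem_filter.mp h).1)] at h2
    exact h2.trans (hdeg v)
  have main : ∀ T1 : Finset (Fin n), T1 ⊆ N → ∃ φ : Fin n → α,
      (∀ x ∈ T1, φ x ∈ A 0 ∧ w (φ x) ≠ 0 ∧ φ x ∉ U) ∧ Set.InjOn φ T1 ∧
      (∀ p ∈ Pp, ∀ x ∈ T1, H.Adj p x → col (ψ p) (φ x) = c) ∧
      (∀ x ∈ T1, ∀ y ∈ T1, H.Adj x y → col (φ x) (φ y) = c) ∧
      (∀ p ∈ Pp, Rich col w c η M0 (Δ - (T1.filter (H.Adj p)).card) ((A 0).filter
        (fun y => col (ψ p) y = c ∧ ∀ x ∈ T1, H.Adj p x → col (φ x) y = c))) ∧
      ∀ v ∉ S0, Good col w c A β ρ T b (Δ - (T1.filter (H.Adj v)).card)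
        (hist H T1 (fun _ => 0) φ v) := by
    intro T1
    induction T1 using Finset.induction_on with
    | empty =>
      intro _
      obtain ⟨a0⟩ := ‹Nonempty α›
      refine ⟨fun _ => a0, by simp, by simp, by simp, by simp, ?_, ?_⟩
      · intro p hp
        simpa using hrich p hp
      · intro v _
        simpa [hist] using hgood
    | insert x T1 hxT ih =>
      intro hTN
      obtain ⟨φ, h1, h2, h3, h4, h5, h6⟩ := ih ((subset_insert _ _).trans hTN)
      have hxN : x ∈ N := hTN (mem_insert_self _ _)
      obtain ⟨p, hp, hpx⟩ := (hNm x).mp hxN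
      have hpu : ∀ p' ∈ Pp, H.Adj p' x → p' = p := by
        intro p' hp' hp'x
        by_contra hne
        exact (hP p' hp' p hp hne).2.1 x ⟨hp'x, hpx.symm⟩
      obtain ⟨Up, hUp⟩ : ∃ Up, Up = (A 0).filter
        (fun y => col (ψ p) y = c ∧ ∀ x ∈ T1, H.Adj p x → col (φ x) y = c) := ⟨_, rfl⟩
      have hUpm : ∀ y, y ∈ Up ↔ y ∈ A 0 ∧ col (ψ p) y = c ∧ ∀ x ∈ T1, H.Adj p x →
        col (φ x) y = c := by intro y; rw [hUp, mem_filter]
      obtain ⟨j, hj⟩ : ∃ j, j = Δ - (T1.filter (H.Adj p)).card - 1 := ⟨_, rfl⟩
      have hj1 : Δ - (T1.filter (H.Adj p)).card = j + 1 := by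
        have := hlt T1 p x hxT hpx
        omega
      have h5p := h5 p hp
      rw [hj1, ← hUp] at h5p
      change η * M0 ≤ mu w (Up.filter (fun y => Rich col w c η M0 j
        (Up.filter (fun z => col y z = c)))) at h5p
      -- bad sets
      obtain ⟨BS, hBS⟩ : ∃ BS : Fin n → Finset α, BS = fun v => (A 0).filter (fun z =>
        ¬ Good col w c A β ρ T b (Δ - (T1.filter (H.Adj v)).card - 1)
          (insert (0, z) (hist H T1 (fun _ => 0) φ v))) := ⟨_, rfl⟩
      obtain ⟨BU, hBU⟩ : ∃ BU, BU = ((univ.filter (H.Adj x)).filter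
        (fun v => v ∉ S0)).biUnion BS := ⟨_, rfl⟩
      have hBSm : ∀ v, v ∉ S0 → H.Adj x v → mu w (BS v) ≤ ρ * M0 := by
        intro v hv hxv
        have h7 := h6 v hv
        have h8 := hlt T1 v x hxT hxv.symm
        obtain ⟨s, hs⟩ : ∃ s, s = Δ - (T1.filter (H.Adj v)).card - 1 := ⟨_, rfl⟩
        have hs1 : Δ - (T1.filter (H.Adj v)).card = s + 1 := by omega
        rw [hs1] at h7
        have h9 := h7.2 0 (mem_insert_self _ _)
        rw [hBS, hM0]
        beta_reduce
        rw [← hs]
        exact h9
      have hBUm : mu w BU ≤ Δ * (ρ * M0) := by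
        rw [hBU]
        refine (mu_biUnion_le hw0 _ _).trans ?_
        have h7 : ∑ v ∈ (univ.filter (H.Adj x)).filter (fun v => v ∉ S0), mu w (BS v) ≤
            ∑ v ∈ (univ.filter (H.Adj x)).filter (fun v => v ∉ S0), ρ * M0 := by
          apply sum_le_sum
          intro v hv
          rw [mem_filter, mem_filter] at hv
          exact hBSm v hv.2 hv.1.2
        refine h7.trans ?_
        rw [sum_const, nsmul_eq_mul]
        have h8 : (((univ.filter (H.Adj x)).filter (fun v => v ∉ S0)).card : ℝ) ≤ Δ := by
          exact_mod_cast (card_le_card (filter_subset _ _)).trans (hdeg x)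
        have : 0 ≤ ρ * M0 := by positivity
        gcongr
      obtain ⟨z, hz, hzn, hzw⟩ := exists_of_mu_lt hw0 (Up.filter (fun y => Rich col w c η M0 j
        (Up.filter (fun z => col y z = c)))) (U ∪ (T1.image φ ∪ BU)) (by
          refine lt_of_lt_of_le ?_ h5p
          have e1 := mu_union_le hw0 U (T1.image φ ∪ BU)
          have e2 := mu_union_le hw0 (T1.image φ) BU
          have e3 := mu_le_card hw1 U
          have e4 : mu w (T1.image φ) ≤ n := by
            refine (mu_le_card hw1 _).trans ?_
            have : (T1.image φ).card ≤ n := by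
              refine card_image_le.trans ?_
              have := card_le_univ T1
              rwa [Fintype.card_fin] at this
            exact_mod_cast this
          have e5 : Δ * (ρ * M0) ≤ η / 4 * M0 := by
            rw [← mul_assoc]
            exact mul_le_mul_of_nonneg_right hΔρ hM0pos.le
          have e6 : 0 < η * M0 := by positivity
          linarith)
      rw [mem_union, mem_union] at hzn
      push Not at hzn
      obtain ⟨hzU, hzT, hzB⟩ := hzn
      rw [mem_filter] at hz
      obtain ⟨hzUp, hzR⟩ := hz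
      have hzA := (hUpm z).mp hzUp
      have hup : ∀ y ∈ T1, Function.update φ x z y = φ y := by
        intro y hy
        rw [Function.update_of_ne]
        rintro rfl
        exact hxT hy
      refine ⟨Function.update φ x z, ?_, ?_, ?_, ?_, ?_, ?_⟩
      · intro y hy
        rw [mem_insert] at hy
        rcases hy with rfl | hy
        · rw [Function.update_self]
          exact ⟨hzA.1, hzw, hzU⟩
        · rw [hup y hy]; exact h1 y hy
      · intro y hy y' hy' hyy
        rw [mem_coe, mem_insert] at hy hy'
        rcases hy with rfl | hy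
        · rcases hy' with rfl | hy'
          · rfl
          · rw [Function.update_self, hup y' hy'] at hyy
            exact absurd (mem_image.mpr ⟨y', hy', hyy.symm⟩) hzT
        · rcases hy' with rfl | hy'
          · rw [Function.update_self, hup y hy] at hyy
            exact absurd (mem_image.mpr ⟨y, hy, hyy⟩) hzT
          · rw [hup y hy, hup y' hy'] at hyy
            exact h2 hy hy' hyy
      · intro p' hp' y hy hpy
        rw [mem_insert] at hy
        rcases hy with rfl | hy
        · rw [Function.update_self, hpu p' hp' hpy]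
          exact hzA.2.1
        · rw [hup y hy]; exact h3 p' hp' y hy hpy
      · -- edges inside `N`
        have key : ∀ y ∈ T1, H.Adj x y → col (φ y) z = c := by
          intro y hy hxy
          obtain ⟨p', hp', hpy⟩ := (hNm y).mp (hTN (mem_insert_of_mem hy))
          have hpp : p = p' := by
            by_contra hne
            exact (hP p hp p' hp' hne).2.2 x y ⟨hpx, hxy, hpy.symm⟩
          exact hzA.2.2 y hy (hpp ▸ hpy)
        intro y hy y' hy' hyy
        rw [mem_insert] at hy hy'
        rcases hy with rfl | hy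
        · rcases hy' with rfl | hy'
          · exact absurd hyy H.irrefl
          · rw [Function.update_self, hup y' hy', hsymm]
            exact key y' hy' hyy
        · rcases hy' with rfl | hy'
          · rw [Function.update_self, hup y hy]
            exact key y hy hyy.symm
          · rw [hup y hy, hup y' hy']
            exact h4 y hy y' hy' hyy
      · intro p' hp'
        by_cases hpp : p' = p
        · subst hpp
          rw [filter_insert, if_pos hpx, card_insert_of_notMem
            (fun h => hxT (mem_filter.mp h).1)]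
          have e1 : Δ - ((T1.filter (H.Adj p')).card + 1) = j := by omega
          rw [e1]
          have e2 : (A 0).filter (fun y => col (ψ p') y = c ∧ ∀ x' ∈ insert x T1, H.Adj p' x' →
              col (Function.update φ x z x') y = c) = Up.filter (fun y => col z y = c) := by
            ext y
            rw [mem_filter, mem_filter, hUpm]
            constructor
            · rintro ⟨a1, a2, a3⟩
              refine ⟨⟨a1, a2, fun x' hx' hpx' => ?_⟩, ?_⟩
              · have := a3 x' (mem_insert_of_mem hx') hpx'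
                rwa [hup x' hx'] at this
              · have := a3 x (mem_insert_self _ _) hpx
                rwa [Function.update_self] at this
            · rintro ⟨⟨a1, a2, a3⟩, a4⟩
              refine ⟨a1, a2, fun x' hx' hpx' => ?_⟩
              rw [mem_insert] at hx'
              rcases hx' with rfl | hx'
              · rw [Function.update_self]; exact a4
              · rw [hup x' hx']; exact a3 x' hx' hpx'
          rw [e2]
          exact hzR
        · have hnp : ¬ H.Adj p' x := fun h => hpp (hpu p' hp' h)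
          rw [filter_insert, if_neg hnp]
          have e2 : (A 0).filter (fun y => col (ψ p') y = c ∧ ∀ x' ∈ insert x T1, H.Adj p' x' →
              col (Function.update φ x z x') y = c) = (A 0).filter (fun y => col (ψ p') y = c ∧
                ∀ x' ∈ T1, H.Adj p' x' → col (φ x') y = c) := by
            ext y
            rw [mem_filter, mem_filter]
            constructor
            · rintro ⟨a1, a2, a3⟩
              refine ⟨a1, a2, fun x' hx' hpx' => ?_⟩
              have := a3 x' (mem_insert_of_mem hx') hpx'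
              rwa [hup x' hx'] at this
            · rintro ⟨a1, a2, a3⟩
              refine ⟨a1, a2, fun x' hx' hpx' => ?_⟩
              rw [mem_insert] at hx'
              rcases hx' with rfl | hx'
              · exact absurd hpx' hnp
              · rw [hup x' hx']; exact a3 x' hx' hpx'
          rw [e2]
          exact h5 p' hp'
      · intro v hv
        have e0 : (fun _ : Fin n => (0:ℕ)) = Function.update (fun _ : Fin n => (0:ℕ)) x 0 := by
          ext y
          by_cases hy : y = x
          · rw [hy, Function.update_self]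
          · rw [Function.update_of_ne hy]
        by_cases hvx : H.Adj v x
        · rw [filter_insert, if_pos hvx, card_insert_of_notMem
            (fun h => hxT (mem_filter.mp h).1), e0, hist_insert_adj H hxT hvx, ← Nat.sub_sub]
          by_contra hcon
          apply hzB
          rw [hBU, mem_biUnion]
          refine ⟨v, ?_, ?_⟩
          · rw [mem_filter, mem_filter]
            exact ⟨⟨mem_univ _, hvx.symm⟩, hv⟩
          · rw [hBS]
            exact mem_filter.mpr ⟨hzA.1, hcon⟩
        · rw [filter_insert, if_neg hvx, e0, hist_insert_nadj H hxT hvx]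
          exact h6 v hv
  obtain ⟨φ, h1, h2, h3, h4, -, h6⟩ := main N le_rfl
  have hnP : ∀ x ∈ N, (if x ∈ Pp then ψ x else φ x) = φ x := fun x hx => if_neg (hNP x hx)
  refine ⟨fun x => if x ∈ Pp then ψ x else φ x, fun p hp => if_pos hp, ?_, ?_, ?_, ?_⟩
  · intro x hx y hy hxy
    rw [mem_coe, hS0, mem_union] at hx hy
    simp only at hxy
    by_cases hxP : x ∈ Pp
    · by_cases hyP : y ∈ Pp
      · rw [if_pos hxP, if_pos hyP] at hxy
        exact hψ hxP hyP hxy
      · have hyN : y ∈ N := hy.resolve_left hyP
        rw [if_pos hxP, if_neg hyP] at hxy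
        exact absurd (hxy ▸ hψw x hxP) (h1 y hyN).2.1
    · have hxN : x ∈ N := hx.resolve_left hxP
      by_cases hyP : y ∈ Pp
      · rw [if_neg hxP, if_pos hyP] at hxy
        exact absurd (hxy ▸ hψw y hyP) (h1 x hxN).2.1
      · have hyN : y ∈ N := hy.resolve_left hyP
        rw [if_neg hxP, if_neg hyP] at hxy
        exact h2 hxN hyN hxy
  · intro x hx
    beta_reduce
    rw [hnP x hx]
    exact h1 x hx
  · intro u hu v hv huv
    rw [hS0, mem_union] at hu hv
    beta_reduce
    by_cases huP : u ∈ Pp
    · by_cases hvP : v ∈ Pp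
      · exact absurd huv (hP u huP v hvP huv.ne).1
      · rw [if_pos huP, if_neg hvP]
        exact h3 u huP v (hv.resolve_left hvP) huv
    · by_cases hvP : v ∈ Pp
      · rw [if_neg huP, if_pos hvP, hsymm]
        exact h3 v hvP u (hu.resolve_left huP) huv.symm
      · rw [if_neg huP, if_neg hvP]
        exact h4 u (hu.resolve_left huP) v (hv.resolve_left hvP) huv
  · intro v hv
    have e1 : S0.filter (H.Adj v) = N.filter (H.Adj v) := by
      ext u
      rw [mem_filter, mem_filter, hS0, mem_union]
      constructor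
      · rintro ⟨hu | hu, huv⟩
        · exact absurd ((hNm v).mpr ⟨u, hu, huv.symm⟩) (hS0N v hv)
        · exact ⟨hu, huv⟩
      · rintro ⟨hu, huv⟩
        exact ⟨Or.inr hu, huv⟩
    have e2 : hist H S0 (fun _ => 0) (fun x => if x ∈ Pp then ψ x else φ x) v =
        hist H N (fun _ => 0) φ v := by
      have e3 : hist H S0 (fun _ => 0) (fun x => if x ∈ Pp then ψ x else φ x) v =
          hist H N (fun _ => 0) (fun x => if x ∈ Pp then ψ x else φ x) v := by
        unfold hist; rw [e1]
      rw [e3]
      apply hist_congr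
      intro u hu _
      exact ⟨rfl, hnP u hu⟩
    rw [e1, e2]
    exact h6 v hv

end Pool.Agent.H99.KR
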