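import Pool.Agent.H99.KR.Defs

/-! Rich sets: from a set of large measure which is not rich one finds a sparse subset. -/

namespace Pool.Agent.H99.KR

open Finset Classical Pool.Agent.H21.Poly Pool.Agent.H21.Tile

section basic

variable {α : Type*} {k : ℕ}

lemma mu_nonneg {w : α → ℝ} (hw : ∀ x, 0 ≤ w x) (A : Finset α) : 0 ≤ mu w A :=
  sum_nonneg fun x _ => hw x

lemma mu_mono {w : α → ℝ} (hw : ∀ x, 0 ≤ w x) {A B : Finset α} (h : A ⊆ B) :
    mu w A ≤ mu w B := sum_le_sum_of_subset_of_nonneg h fun x _ _ => hw x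

lemma mu_union_le {w : α → ℝ} (hw : ∀ x, 0 ≤ w x) (A B : Finset α) :
    mu w (A ∪ B) ≤ mu w A + mu w B := by
  unfold mu
  have h1 : ∑ y ∈ A ∪ B, w y = ∑ y ∈ A, w y + ∑ y ∈ B \ A, w y := by
    rw [← sum_union disjoint_sdiff, union_sdiff_self_eq_union]
  have h2 : ∑ y ∈ B \ A, w y ≤ ∑ y ∈ B, w y :=
    sum_le_sum_of_subset_of_nonneg sdiff_subset fun x _ _ => hw x
  linarith

lemma mu_biUnion_le {ι : Type*} {w : α → ℝ} (hw : ∀ x, 0 ≤ w x) (s : Finset ι)
    (A : ι → Finset α) : mu w (s.biUnion A) ≤ ∑ i ∈ s, mu w (A i) := by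
  induction s using Finset.induction_on with
  | empty => simp [mu]
  | insert a s ha ih =>
    rw [biUnion_insert, sum_insert ha]
    exact (mu_union_le hw _ _).trans (by linarith)

lemma mu_le_card {w : α → ℝ} (hw1 : ∀ x, w x ≤ 1) (C : Finset α) : mu w C ≤ C.card := by
  calc mu w C ≤ ∑ y ∈ C, (1:ℝ) := sum_le_sum fun x _ => hw1 x
    _ = C.card := by simp

/-- a set which is larger than the union of some sets contains a point outside of positive
weight -/
lemma exists_of_mu_lt {w : α → ℝ} (hw : ∀ x, 0 ≤ w x) (A B : Finset α) (h : mu w B < mu w A) :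
    ∃ x ∈ A, x ∉ B ∧ w x ≠ 0 := by
  by_contra hcon
  push Not at hcon
  have h1 : mu w A ≤ mu w B := by
    unfold mu
    rw [← sum_filter_ne_zero (s := A)]
    apply sum_le_sum_of_subset_of_nonneg _ fun x _ _ => hw x
    intro x hx
    rw [mem_filter] at hx
    by_contra hB
    exact hx.2 (hcon x hx.1 hB)
  linarith

/-- Rich sets.  `M0` is the measure of the bottom set of the chain. -/
def Rich (col : α → α → Fin k) (w : α → ℝ) (c : Fin k) (η M0 : ℝ) : ℕ → Finset α → Prop
  | 0, _ => True
  | m + 1, U => η * M0 ≤ mu w (U.filter (fun y => Rich col w c η M0 m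
      (U.filter (fun z => col y z = c))))

variable {col : α → α → Fin k}

lemma sparse_of_not_rich {w : α → ℝ} (hw : ∀ x, 0 ≤ w x) (c : Fin k) {η M0 e : ℝ} (he : 0 ≤ e)
    (he1 : e ≤ 1) : ∀ (m : ℕ) (U : Finset α), η * M0 ≤ e ^ m * mu w U →
      ¬ Rich col w c η M0 m U → ∃ S ⊆ U, e ^ m * mu w U ≤ mu w S ∧
        mu w (S.filter (fun y => e * mu w S ≤ mu w (S.filter (fun z => col y z = c)))) ≤
          e * mu w S := by
  intro m
  induction m with
  | zero => intro U _ h; exact absurd trivial h
  | succ m ih =>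
    intro U hU hR
    by_cases h : mu w (U.filter (fun y => e * mu w U ≤ mu w (U.filter (fun z => col y z = c)))) ≤
        e * mu w U
    · refine ⟨U, le_rfl, ?_, h⟩
      have h1 := mu_nonneg hw U
      have h2 : e ^ (m + 1) ≤ 1 := pow_le_one₀ he he1
      nlinarith
    · push Not at h
      have h1 := mu_nonneg hw U
      obtain ⟨y, hy, hyR⟩ : ∃ y ∈ U.filter (fun y => e * mu w U ≤
          mu w (U.filter (fun z => col y z = c))), ¬ Rich col w c η M0 m
          (U.filter (fun z => col y z = c)) := by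
        by_contra hcon
        push Not at hcon
        apply hR
        change η * M0 ≤ _
        refine hU.trans (le_trans ?_ (h.le.trans (mu_mono hw ?_)))
        · rw [pow_succ]
          have h2 : e ^ m ≤ 1 := pow_le_one₀ he he1
          have h3 : 0 ≤ e * mu w U := mul_nonneg he h1
          nlinarith
        · intro y hy
          exact mem_filter.mpr ⟨(mem_filter.mp hy).1, hcon y hy⟩
      rw [mem_filter] at hy
      have h2 : e ^ (m + 1) * mu w U ≤ e ^ m * mu w (U.filter (fun z => col y z = c)) := by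
        rw [pow_succ, mul_assoc]
        exact mul_le_mul_of_nonneg_left hy.2 (pow_nonneg he m)
      obtain ⟨S, hS, hS1, hS2⟩ := ih _ (hU.trans h2) hyR
      exact ⟨S, hS.trans (filter_subset _ _), h2.trans hS1, hS2⟩

end basic

section dens

variable {α : Type*} [Fintype α] {k : ℕ} {col : α → α → Fin k}

lemma mass_restr_mu (w : α → ℝ) (C : Finset α) : mass (restr (fun x => x ∈ C) w) = mu w C :=
  mass_restr_mem w C

/-- the density of the colour `c` in the sparse set -/
lemma dens_of_sparse {w : α → ℝ} (hw : ∀ x, 0 ≤ w x) (c : Fin k) {e : ℝ} (he : 0 ≤ e)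
    (S : Finset α)
    (hS : mu w (S.filter (fun y => e * mu w S ≤ mu w (S.filter (fun z => col y z = c)))) ≤
      e * mu w S) :
    eD col {c} (restr (fun x => x ∈ S) w) (restr (fun x => x ∈ S) w) ≤ 2 * e * mu w S ^ 2 := by
  have h0 := mu_nonneg hw S
  have h1 : eD col {c} (restr (fun x => x ∈ S) w) (restr (fun x => x ∈ S) w) =
      ∑ x ∈ S, w x * mu w (S.filter (fun z => col x z = c)) := by
    unfold eD
    simp_rw [nbw_restr_mem]
    unfold restr mu
    simp_rw [ite_mul, zero_mul]
    rw [← sum_filter]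
    apply sum_congr _ fun _ _ => rfl
    ext x; simp
  rw [h1, ← sum_filter_add_sum_filter_not S
    (fun y => e * mu w S ≤ mu w (S.filter (fun z => col y z = c)))]
  have h2 : ∑ x ∈ S.filter (fun y => e * mu w S ≤ mu w (S.filter (fun z => col y z = c))),
      w x * mu w (S.filter (fun z => col x z = c)) ≤ (e * mu w S) * mu w S := by
    calc _ ≤ ∑ x ∈ S.filter (fun y => e * mu w S ≤ mu w (S.filter (fun z => col y z = c))),
          w x * mu w S := sum_le_sum fun x _ =>
            mul_le_mul_of_nonneg_left (mu_mono hw (filter_subset _ _)) (hw x)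
      _ = mu w (S.filter (fun y => e * mu w S ≤ mu w (S.filter (fun z => col y z = c)))) *
          mu w S := by rw [← sum_mul]; rfl
      _ ≤ _ := mul_le_mul_of_nonneg_right hS h0
  have h3 : ∑ x ∈ S.filter (fun y => ¬ e * mu w S ≤ mu w (S.filter (fun z => col y z = c))),
      w x * mu w (S.filter (fun z => col x z = c)) ≤ mu w S * (e * mu w S) := by
    calc _ ≤ ∑ x ∈ S.filter (fun y => ¬ e * mu w S ≤ mu w (S.filter (fun z => col y z = c))),
          w x * (e * mu w S) := by
          apply sum_le_sum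
          intro x hx
          rw [mem_filter, not_le] at hx
          exact mul_le_mul_of_nonneg_left hx.2.le (hw x)
      _ = mu w (S.filter (fun y => ¬ e * mu w S ≤ mu w (S.filter (fun z => col y z = c)))) *
          (e * mu w S) := by rw [← sum_mul]; rfl
      _ ≤ _ := mul_le_mul_of_nonneg_right (mu_mono hw (filter_subset _ _)) (by positivity)
  calc _ ≤ (e * mu w S) * mu w S + mu w S * (e * mu w S) := add_le_add h2 h3
    _ = _ := by ring

end dens

end Pool.Agent.H99.KR
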