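import Pool.Agent.H99.KR.Defs

/-! The chain lemma (Steps 1, 2, 3 of Theorem R), weighted, with dead colours and time `0`.

PROOF.  `β = 2 ^ (-L)`, `ρ = 2 ^ (-a)`, `σ = 2 ^ (- m P)`, `M = mass w`.
`A i = univ` for `i ≥ P`.  Given `A i` (`i = P, …, 1`) with `mu (A i) ≥ 2 ^ (- m (P - i)) M`: call
`z` legal if `∑ y ∈ A i, if col z y ∈ D0 then w y else 0 ≤ mu (A i) / 4`; by Markov (`hdead`) the
legal `z ∈ A i` have measure at least `mu (A i) / 2`.  For legal `z ∈ A i` let `c z` be a living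
colour with `mu {y ∈ A i | col z y = c z} ≥ mu (A i) / (2 k) ≥ 2 ^ (- m) mu (A i)`.  We choose a
legal `z = z i ∈ A i`, put `cc i = c z`, `A (i - 1) = {y ∈ A i | col z y = c z}` (`z` may stay).

Potential.  For a colour `c` and a history `h`:
`pot i c h = 2 ^ (L * #{bad times j > i of colour c of h}) * 1[∀ (t,y) ∈ h, y ∈ A (max t i)]`;
a time `j` of colour `c` is bad for `h` if `Bd col w c A β j h`.  `K f h = f h + κ ∑ t ≤ P, ∑ x,
w x * f (insert (t,x) h)` with `κ = 1 / (ρ σ M)`; `K` is linear and monotone.  Claim: `z` can be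
chosen such that `∑ c, (K^Δ (pot (i-1) c)) ∅ ≤ 4 * ∑ c, (K^Δ (pot i c)) ∅`: average over the legal
`z ∈ A i` (weights `w z`): pointwise in `h` the average of `pot (i-1) c h` is at most
`pot i c h * (1 + 2 ^ L * β * mu (A i) / mu (legal)) ≤ 3 * pot i c h`: if `i` is bad for `(c,h)`,
`c z = c` and the indicator survives, then every `(t,y) ∈ h` with `t < i` has `y ∈ A (i-1)`, so
`col z y = c`, so `z ∈ Cd col c A i h`, a set of measure `< β mu (A i)`.
Start: `pot P c h = 1`, `(K^Δ 1) ∅ = (1 + (P+1)/(ρ σ))^Δ`.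
End: `pot 0 c h ≥ 2 ^ (L b)` if all `(t,y) ∈ h` have `y ∈ A t` and `h` has at least `b` bad times.
If `Good … Δ ∅` fails for the colour `c` then `(K^Δ (1[bad h, valid])) ∅ ≥ 1` (induction on `s`:
`¬ Good s h` implies `(K^s (1[bad, valid])) h ≥ 1` for valid `h`, as `μ{x ∈ A i | ¬ Good s (insert
(i,x) h)} > ρ mu (A i)` gives `κ * ∑ … > κ ρ σ M = 1`), hence `2 ^ (L b) ≤ 4 ^ P k (1 + …)^Δ`,
against `hcond`. -/

namespace Pool.Agent.H99.KR

open Finset Classical Pool.Agent.H21.Poly Pool.Agent.H21.Tile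

lemma mu_nonneg {α : Type*} {w : α → ℝ} (hw0 : ∀ x, 0 ≤ w x) (S : Finset α) : 0 ≤ mu w S :=
  sum_nonneg (fun x _ => hw0 x)

lemma mu_mono {α : Type*} {w : α → ℝ} (hw0 : ∀ x, 0 ≤ w x) {S S' : Finset α} (h : S ⊆ S') :
    mu w S ≤ mu w S' :=
  sum_le_sum_of_subset_of_nonneg h (fun x _ _ => hw0 x)

/-- The weight of a test (a colour and a history) with respect to a chain. -/
noncomputable def WtW {α : Type*} {k : ℕ} (col : α → α → Fin k) (w : α → ℝ) (B : ℕ → Finset α)
    (cc : ℕ → Fin k) (L P : ℕ) (x : Fin k × Finset (ℕ × α)) : ℝ :=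
  if (∀ p ∈ x.2, p.1 ≤ P → p.2 ∈ B p.1) then
    2 ^ (L * ((Icc 1 P).filter (fun i => cc i = x.1 ∧ Bd col w x.1 B ((1 / 2) ^ L) i x.2)).card)
  else 0

/-- The factor of one step. -/
noncomputable def EW {α : Type*} {k : ℕ} (col : α → α → Fin k) (w : α → ℝ) (S : Finset α)
    (mc : α → Fin k) (L P : ℕ) (z : α) (x : Fin k × Finset (ℕ × α)) : ℝ :=
  (if mc z = x.1 ∧ Bd col w x.1 (fun _ => S) ((1 / 2) ^ L) (P + 1) x.2 then 2 ^ L else 1) *
    (if ∀ p ∈ x.2, p.1 ≤ P → p.2 ∈ S.filter (fun y => col z y = mc z) then 1 else 0)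

lemma EW_nonneg {α : Type*} {k : ℕ} (col : α → α → Fin k) (w : α → ℝ) (S : Finset α)
    (mc : α → Fin k) (L P : ℕ) (z : α) (x : Fin k × Finset (ℕ × α)) :
    0 ≤ EW col w S mc L P z x := by
  unfold EW
  apply mul_nonneg
  · split_ifs <;> positivity
  · split_ifs <;> norm_num

lemma WtW_nonneg {α : Type*} {k : ℕ} (col : α → α → Fin k) (w : α → ℝ) (B : ℕ → Finset α)
    (cc : ℕ → Fin k) (L P : ℕ) (x : Fin k × Finset (ℕ × α)) : 0 ≤ WtW col w B cc L P x := by
  unfold WtW
  split_ifs <;> positivity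

lemma EW_sum {α : Type*} {k : ℕ} (col : α → α → Fin k) {w : α → ℝ} (hw0 : ∀ x, 0 ≤ w x)
    (S Lg : Finset α) (hLg : Lg ⊆ S) (hLgS : mu w S ≤ 2 * mu w Lg)
    (mc : α → Fin k) (L P : ℕ) (x : Fin k × Finset (ℕ × α)) :
    ∑ z ∈ Lg, w z * EW col w S mc L P z x ≤ 4 * mu w Lg := by
  have hLg0 : 0 ≤ mu w Lg := mu_nonneg hw0 Lg
  by_cases hb : Bd col w x.1 (fun _ => S) ((1 / 2) ^ L) (P + 1) x.2
  · obtain ⟨C, hC⟩ : ∃ C, C = Cd col x.1 (fun _ => S) (P + 1) x.2 := ⟨_, rfl⟩
    have hCmu : mu w C < (1 / 2) ^ L * mu w S := by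
      rw [hC]; exact hb
    have h1 : ∀ z ∈ Lg, w z * EW col w S mc L P z x ≤
        w z + 2 ^ L * (if z ∈ C then w z else 0) := by
      intro z hz
      unfold EW
      by_cases hm : mc z = x.1
      · rw [if_pos ⟨hm, hb⟩]
        by_cases hv : ∀ p ∈ x.2, p.1 ≤ P → p.2 ∈ S.filter (fun y => col z y = mc z)
        · have hzC : z ∈ C := by
            rw [hC]
            unfold Cd
            rw [mem_filter]
            refine ⟨hLg hz, ?_⟩
            intro p hp hpP
            have := (mem_filter.mp (hv p hp (by omega))).2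
            rw [this, hm]
          rw [if_pos hv, if_pos hzC]
          have := hw0 z
          linarith
        · rw [if_neg hv, mul_zero, mul_zero]
          have h2 : (0:ℝ) ≤ (if z ∈ C then w z else 0) := by
            split_ifs
            · exact hw0 z
            · exact le_rfl
          have := hw0 z
          positivity
      · rw [if_neg (fun h => hm h.1), one_mul]
        have h2 : (if (∀ p ∈ x.2, p.1 ≤ P → p.2 ∈ S.filter (fun y => col z y = mc z)) then (1:ℝ)
            else 0) ≤ 1 := by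
          split_ifs <;> norm_num
        have h3 := mul_le_mul_of_nonneg_left h2 (hw0 z)
        have h4 : (0:ℝ) ≤ (if z ∈ C then w z else 0) := by
          split_ifs
          · exact hw0 z
          · exact le_rfl
        have h5 : (0:ℝ) ≤ 2 ^ L * (if z ∈ C then w z else 0) := by positivity
        linarith
    refine (sum_le_sum h1).trans ?_
    rw [sum_add_distrib, ← mul_sum, ← sum_filter]
    have h6 : ∑ z ∈ Lg.filter (fun z => z ∈ C), w z ≤ mu w C := by
      apply sum_le_sum_of_subset_of_nonneg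
      · intro z hz
        exact (mem_filter.mp hz).2
      · intro z _ _
        exact hw0 z
    have h7 : (2:ℝ) ^ L * ((1 / 2) ^ L * mu w S) = mu w S := by
      rw [← mul_assoc, ← mul_pow]
      norm_num
    have h8 : (2:ℝ) ^ L * ∑ z ∈ Lg.filter (fun z => z ∈ C), w z ≤ mu w S := by
      rw [← h7]
      exact mul_le_mul_of_nonneg_left (h6.trans hCmu.le) (by positivity)
    have h9 : ∑ z ∈ Lg, w z = mu w Lg := rfl
    rw [h9]
    linarith
  · have h1 : ∀ z ∈ Lg, w z * EW col w S mc L P z x ≤ w z := by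
      intro z hz
      unfold EW
      rw [if_neg (fun h => hb h.2), one_mul]
      have h2 : (if (∀ p ∈ x.2, p.1 ≤ P → p.2 ∈ S.filter (fun y => col z y = mc z)) then (1:ℝ)
          else 0) ≤ 1 := by
        split_ifs <;> norm_num
      have h3 := mul_le_mul_of_nonneg_left h2 (hw0 z)
      linarith
    refine (sum_le_sum h1).trans ?_
    have h9 : ∑ z ∈ Lg, w z = mu w Lg := rfl
    rw [h9]
    linarith

lemma WtW_succ {α : Type*} {k : ℕ} (col : α → α → Fin k) (w : α → ℝ) (S : Finset α)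
    (mc : α → Fin k) (L P : ℕ) (z : α) (B' B : ℕ → Finset α) (c' c : ℕ → Fin k)
    (hB : ∀ i, i ≤ P → B i = B' i) (hBP : B (P + 1) = S) (hc : ∀ i, i ≤ P → c i = c' i)
    (hcP : c (P + 1) = mc z) (hsub : ∀ i, i ≤ P → B' i ⊆ S.filter (fun y => col z y = mc z))
    (x : Fin k × Finset (ℕ × α)) :
    WtW col w B c L (P + 1) x ≤ EW col w S mc L P z x * WtW col w B' c' L P x := by
  by_cases hv : ∀ p ∈ x.2, p.1 ≤ P + 1 → p.2 ∈ B p.1
  · have hv' : ∀ p ∈ x.2, p.1 ≤ P → p.2 ∈ B' p.1 := by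
      intro p hp hpP
      rw [← hB p.1 hpP]
      exact hv p hp (by omega)
    have hv2 : ∀ p ∈ x.2, p.1 ≤ P → p.2 ∈ S.filter (fun y => col z y = mc z) :=
      fun p hp hpP => hsub _ hpP (hv' p hp hpP)
    have e : (Icc 1 P).filter (fun i => c i = x.1 ∧ Bd col w x.1 B ((1 / 2) ^ L) i x.2) =
        (Icc 1 P).filter (fun i => c' i = x.1 ∧ Bd col w x.1 B' ((1 / 2) ^ L) i x.2) := by
      apply filter_congr
      intro i hi
      rw [mem_Icc] at hi
      unfold Bd Cd
      rw [hB i hi.2, hc i hi.2]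
    have hP : Bd col w x.1 B ((1 / 2) ^ L) (P + 1) x.2 ↔
        Bd col w x.1 (fun _ => S) ((1 / 2) ^ L) (P + 1) x.2 := by
      unfold Bd Cd
      rw [hBP]
    have hI : Icc 1 (P + 1) = insert (P + 1) (Icc 1 P) := by
      ext i
      rw [mem_insert, mem_Icc, mem_Icc]
      omega
    unfold WtW EW
    rw [if_pos hv, if_pos hv', if_pos hv2, hI, filter_insert, e, hcP, hP]
    by_cases hm : mc z = x.1 ∧ Bd col w x.1 (fun _ => S) ((1 / 2) ^ L) (P + 1) x.2
    · rw [if_pos hm, if_pos hm, card_insert_of_notMem (by simp), mul_add, pow_add, mul_one]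
      apply le_of_eq
      ring
    · rw [if_neg hm, if_neg hm]
      apply le_of_eq
      ring
  · have : WtW col w B c L (P + 1) x = 0 := by
      unfold WtW
      rw [if_neg hv]
    rw [this]
    exact mul_nonneg (EW_nonneg _ _ _ _ _ _ _ _) (WtW_nonneg _ _ _ _ _ _ _)

lemma exists_living {α : Type*} {k : ℕ} (col : α → α → Fin k) (D0 : Finset (Fin k))
    (hD0 : (univ \ D0).Nonempty) {w : α → ℝ} (m : ℕ) (hm : 2 * k ≤ 2 ^ m)
    (S : Finset α) (hS : 0 < mu w S) (z : α) :
    ∃ c, c ∉ D0 ∧ ((∑ y ∈ S, if col z y ∈ D0 then w y else 0) ≤ mu w S / 4 →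
      (1 / 2) ^ m * mu w S ≤ mu w (S.filter (fun y => col z y = c))) := by
  by_cases hleg : (∑ y ∈ S, if col z y ∈ D0 then w y else 0) ≤ mu w S / 4
  · by_contra hcon
    push Not at hcon
    have h1 : ∀ c ∈ univ \ D0, mu w (S.filter (fun y => col z y = c)) ≤
        (1 / 2) ^ m * mu w S := fun c hc => (hcon c (mem_sdiff.mp hc).2).2.le
    have h2 := sum_le_sum h1
    rw [sum_const, nsmul_eq_mul] at h2
    have h3 : ∑ c ∈ univ \ D0, mu w (S.filter (fun y => col z y = c)) =
        mu w S - ∑ y ∈ S, if col z y ∈ D0 then w y else 0 := by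
      unfold mu
      rw [← sum_sub_distrib]
      have h4 : ∀ c ∈ univ \ D0, ∑ y ∈ S.filter (fun y => col z y = c), w y =
          ∑ y ∈ S, if col z y = c then w y else 0 := fun c _ => sum_filter _ _
      rw [sum_congr rfl h4, sum_comm]
      apply sum_congr rfl
      intro y _
      rw [sum_ite_eq]
      by_cases hy : col z y ∈ D0
      · rw [if_neg (fun h => (mem_sdiff.mp h).2 hy), if_pos hy, sub_self]
      · rw [if_pos (mem_sdiff.mpr ⟨mem_univ _, hy⟩), if_neg hy, sub_zero]
    rw [h3] at h2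
    have h5 : (((univ \ D0).card : ℕ) : ℝ) ≤ k := by
      have := card_le_univ (univ \ D0)
      rw [Fintype.card_fin] at this
      exact_mod_cast this
    have h6 : (k : ℝ) * (1 / 2) ^ m ≤ 1 / 2 := by
      have h7 : (2:ℝ) * k ≤ 2 ^ m := by exact_mod_cast hm
      rw [one_div_pow, mul_one_div, div_le_iff₀ (by positivity)]
      linarith
    have h8 : (((univ \ D0).card : ℕ) : ℝ) * ((1 / 2) ^ m * mu w S) ≤ 1 / 2 * mu w S := by
      calc (((univ \ D0).card : ℕ) : ℝ) * ((1 / 2) ^ m * mu w S) ≤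
          k * ((1 / 2) ^ m * mu w S) := by gcongr
        _ = (k * (1 / 2) ^ m) * mu w S := by ring
        _ ≤ _ := by gcongr
    linarith
  · obtain ⟨c, hc⟩ := hD0
    exact ⟨c, (mem_sdiff.mp hc).2, fun h => absurd h hleg⟩

lemma legal_half {α : Type*} {k : ℕ} (col : α → α → Fin k) (D0 : Finset (Fin k))
    {w : α → ℝ} (hw0 : ∀ x, 0 ≤ w x) (S : Finset α) (hS : 0 < mu w S)
    (hd : 8 * ∑ z ∈ S, w z * ∑ y ∈ S, (if col z y ∈ D0 then w y else 0) ≤ (mu w S) ^ 2) :
    mu w S ≤ 2 * mu w (S.filter (fun z => (∑ y ∈ S, if col z y ∈ D0 then w y else 0) ≤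
      mu w S / 4)) := by
  obtain ⟨dd, hdd⟩ : ∃ dd : α → ℝ, dd = fun z => ∑ y ∈ S, (if col z y ∈ D0 then w y else 0) :=
    ⟨_, rfl⟩
  have hdd0 : ∀ z, 0 ≤ dd z := by
    intro z
    rw [hdd]
    apply sum_nonneg
    intro y _
    split_ifs
    · exact hw0 y
    · exact le_rfl
  have e1 : ∀ z, (∑ y ∈ S, if col z y ∈ D0 then w y else 0) = dd z := fun z => by rw [hdd]
  simp only [e1] at hd ⊢
  have h1 : mu w (S.filter (fun z => dd z ≤ mu w S / 4)) +
      mu w (S.filter (fun z => ¬ dd z ≤ mu w S / 4)) = mu w S := by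
    unfold mu
    exact sum_filter_add_sum_filter_not S _ _
  have h2 : mu w (S.filter (fun z => ¬ dd z ≤ mu w S / 4)) * (mu w S / 4) ≤
      ∑ z ∈ S, w z * dd z := by
    calc mu w (S.filter (fun z => ¬ dd z ≤ mu w S / 4)) * (mu w S / 4) =
        ∑ z ∈ S.filter (fun z => ¬ dd z ≤ mu w S / 4), w z * (mu w S / 4) := by
          unfold mu
          rw [sum_mul]
      _ ≤ ∑ z ∈ S.filter (fun z => ¬ dd z ≤ mu w S / 4), w z * dd z := by
          apply sum_le_sum
          intro z hz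
          have := (mem_filter.mp hz).2
          push Not at this
          exact mul_le_mul_of_nonneg_left this.le (hw0 z)
      _ ≤ ∑ z ∈ S, w z * dd z := by
          apply sum_le_sum_of_subset_of_nonneg (filter_subset _ _)
          intro z _ _
          exact mul_nonneg (hw0 z) (hdd0 z)
  have h3 : mu w (S.filter (fun z => ¬ dd z ≤ mu w S / 4)) * (2 * mu w S) ≤ mu w S * mu w S := by
    nlinarith
  have h4 : mu w (S.filter (fun z => ¬ dd z ≤ mu w S / 4)) * 2 ≤ mu w S := by
    apply le_of_mul_le_mul_right _ hS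
    linarith
  linarith

/-- A chain of neighbourhoods such that the average weight is small. -/
theorem chainW {α : Type*} {k : ℕ} (col : α → α → Fin k) (D0 : Finset (Fin k))
    (hD0 : (univ \ D0).Nonempty) {w : α → ℝ} (hw0 : ∀ x, 0 ≤ w x) (m : ℕ) (hm : 2 * k ≤ 2 ^ m)
    (L : ℕ) (P : ℕ) :
    ∀ S : Finset α, 0 < mu w S →
    8 * ∑ z ∈ S, w z * ∑ y ∈ S, (if col z y ∈ D0 then w y else 0) ≤
      ((1 / 2) ^ (m * P) * mu w S) ^ 2 →
    ∀ Φ : ((Fin k × Finset (ℕ × α)) → ℝ) →ₗ[ℝ] ℝ,
    (∀ f g, (∀ x, f x ≤ g x) → Φ f ≤ Φ g) →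
    ∃ (B : ℕ → Finset α) (c : ℕ → Fin k), (∀ i, c i ∉ D0) ∧ (∀ i, B i ⊆ S) ∧
      (∀ i j, i ≤ j → B i ⊆ B j) ∧ (∀ i, (1 / 2) ^ (m * P) * mu w S ≤ mu w (B i)) ∧
      Φ (WtW col w B c L P) ≤ 4 ^ P * Φ (fun _ => 1) := by
  induction P with
  | zero =>
    intro S hS _ Φ hΦ
    obtain ⟨c0, hc0⟩ := hD0
    refine ⟨fun _ => S, fun _ => c0, fun _ => (mem_sdiff.mp hc0).2, fun _ => subset_rfl,
      fun _ _ _ => subset_rfl, fun _ => by simp, ?_⟩
    rw [pow_zero, one_mul]
    apply hΦ
    intro x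
    unfold WtW
    split_ifs
    · simp
    · norm_num
  | succ P ih =>
    intro S hS hd Φ hΦ
    choose mc hmc1 hmc2 using exists_living col D0 hD0 (w := w) m hm S hS
    have hp1 : ((1:ℝ) / 2) ^ (m * (P + 1)) ≤ 1 := pow_le_one₀ (by norm_num) (by norm_num)
    have hd1 : 8 * ∑ z ∈ S, w z * ∑ y ∈ S, (if col z y ∈ D0 then w y else 0) ≤
        (mu w S) ^ 2 := by
      refine hd.trans ?_
      apply pow_le_pow_left₀ (by positivity)
      calc ((1:ℝ) / 2) ^ (m * (P + 1)) * mu w S ≤ 1 * mu w S := by gcongr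
        _ = mu w S := one_mul _
    have hhalf := legal_half col D0 hw0 S hS hd1
    obtain ⟨Lg, hLg⟩ : ∃ Lg, Lg = S.filter (fun z => (∑ y ∈ S, if col z y ∈ D0 then w y else 0) ≤
      mu w S / 4) := ⟨_, rfl⟩
    rw [← hLg] at hhalf
    have hLgS : Lg ⊆ S := by rw [hLg]; exact filter_subset _ _
    have hLgpos : 0 < mu w Lg := by linarith
    have havg : ∃ z ∈ Lg, Φ (EW col w S mc L P z) ≤ 4 * Φ (fun _ => 1) := by
      by_contra hcon
      push Not at hcon
      have h1 : ∑ z ∈ Lg, w z * Φ (EW col w S mc L P z) ≤ 4 * mu w Lg * Φ (fun _ => 1) := by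
        have h2 : Φ (∑ z ∈ Lg, w z • EW col w S mc L P z) ≤
            Φ ((4 * mu w Lg) • (fun _ : Fin k × Finset (ℕ × α) => (1:ℝ))) := by
          apply hΦ
          intro x
          rw [Finset.sum_apply, Pi.smul_apply, smul_eq_mul, mul_one]
          have h3 := EW_sum col hw0 S Lg hLgS hhalf mc L P x
          exact h3
        rw [map_sum, map_smul, smul_eq_mul] at h2
        have h4 : ∑ z ∈ Lg, w z * Φ (EW col w S mc L P z) =
            ∑ z ∈ Lg, Φ (w z • EW col w S mc L P z) := by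
          apply sum_congr rfl
          intro z _
          rw [map_smul, smul_eq_mul]
        rw [h4]
        exact h2
      have h5 : ∑ z ∈ Lg, w z * (4 * Φ (fun _ => 1)) < ∑ z ∈ Lg, w z * Φ (EW col w S mc L P z) := by
        apply sum_lt_sum
        · intro z hz
          exact mul_le_mul_of_nonneg_left (hcon z hz).le (hw0 z)
        · have h6 : ∃ z ∈ Lg, 0 < w z := by
            by_contra hcon2
            push Not at hcon2
            have : mu w Lg ≤ 0 := sum_nonpos hcon2
            linarith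
          obtain ⟨z, hz, hz2⟩ := h6
          exact ⟨z, hz, mul_lt_mul_of_pos_left (hcon z hz) hz2⟩
      rw [← sum_mul] at h5
      have h7 : ∑ z ∈ Lg, w z = mu w Lg := rfl
      rw [h7] at h5
      linarith
    obtain ⟨z, hz, hzΦ⟩ := havg
    have hzleg : (∑ y ∈ S, if col z y ∈ D0 then w y else 0) ≤ mu w S / 4 := by
      rw [hLg] at hz
      exact (mem_filter.mp hz).2
    obtain ⟨S', hS'⟩ : ∃ S', S' = S.filter (fun y => col z y = mc z) := ⟨_, rfl⟩
    have hS'c : (1 / 2) ^ m * mu w S ≤ mu w S' := by rw [hS']; exact hmc2 z hzleg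
    have hS'pos : 0 < mu w S' := lt_of_lt_of_le (by positivity) hS'c
    have hS'S : S' ⊆ S := by rw [hS']; exact filter_subset _ _
    have hchain : (1 / 2) ^ (m * (P + 1)) * mu w S ≤ (1 / 2) ^ (m * P) * mu w S' := by
      calc ((1:ℝ) / 2) ^ (m * (P + 1)) * mu w S = (1 / 2) ^ (m * P) * ((1 / 2) ^ m * mu w S) := by
            rw [Nat.mul_succ, pow_add, mul_assoc]
        _ ≤ _ := mul_le_mul_of_nonneg_left hS'c (by positivity)
    have hd2 : 8 * ∑ z ∈ S', w z * ∑ y ∈ S', (if col z y ∈ D0 then w y else 0) ≤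
        ((1 / 2) ^ (m * P) * mu w S') ^ 2 := by
      have h1 : ∑ z ∈ S', w z * ∑ y ∈ S', (if col z y ∈ D0 then w y else 0) ≤
          ∑ z ∈ S, w z * ∑ y ∈ S, (if col z y ∈ D0 then w y else 0) := by
        have hnn : ∀ z, ∀ y, 0 ≤ (if col z y ∈ D0 then w y else 0) := by
          intro z y
          split_ifs
          · exact hw0 y
          · exact le_rfl
        calc ∑ z ∈ S', w z * ∑ y ∈ S', (if col z y ∈ D0 then w y else 0) ≤
            ∑ z ∈ S', w z * ∑ y ∈ S, (if col z y ∈ D0 then w y else 0) := by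
              apply sum_le_sum
              intro z _
              apply mul_le_mul_of_nonneg_left _ (hw0 z)
              exact sum_le_sum_of_subset_of_nonneg hS'S (fun y _ _ => hnn z y)
          _ ≤ _ := by
              apply sum_le_sum_of_subset_of_nonneg hS'S
              intro z _ _
              exact mul_nonneg (hw0 z) (sum_nonneg (fun y _ => hnn z y))
      have h2 : ((1 / 2) ^ (m * (P + 1)) * mu w S) ^ 2 ≤ ((1 / 2) ^ (m * P) * mu w S') ^ 2 :=
        pow_le_pow_left₀ (by positivity) hchain 2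
      linarith
    obtain ⟨B', c', h0, h1, h2, h3, h4⟩ := ih S' hS'pos hd2
      (Φ.comp (LinearMap.mulLeft ℝ (EW col w S mc L P z))) (by
        intro f g hfg
        rw [LinearMap.comp_apply, LinearMap.comp_apply, LinearMap.mulLeft_apply,
          LinearMap.mulLeft_apply]
        apply hΦ
        intro x
        rw [Pi.mul_apply, Pi.mul_apply]
        exact mul_le_mul_of_nonneg_left (hfg x) (EW_nonneg _ _ _ _ _ _ _ _))
    rw [LinearMap.comp_apply, LinearMap.comp_apply, LinearMap.mulLeft_apply,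
      LinearMap.mulLeft_apply] at h4
    have hE1 : EW col w S mc L P z * (fun _ => (1:ℝ)) = EW col w S mc L P z := by
      ext x
      rw [Pi.mul_apply, mul_one]
    rw [hE1] at h4
    refine ⟨fun i => if P + 1 ≤ i then S else B' i, fun i => if P + 1 ≤ i then mc z else c' i,
      ?_, ?_, ?_, ?_, ?_⟩
    · intro i
      beta_reduce
      split_ifs with h
      · exact hmc1 z
      · exact h0 i
    · intro i
      beta_reduce
      split_ifs with h
      · exact subset_rfl
      · exact (h1 i).trans hS'S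
    · intro i j hij
      beta_reduce
      by_cases hjP : P + 1 ≤ j
      · rw [if_pos hjP]
        split_ifs with h
        · exact subset_rfl
        · exact (h1 i).trans hS'S
      · rw [if_neg hjP, if_neg (by omega : ¬ P + 1 ≤ i)]
        exact h2 i j hij
    · intro i
      beta_reduce
      split_ifs with h
      · calc ((1:ℝ) / 2) ^ (m * (P + 1)) * mu w S ≤ 1 * mu w S := by gcongr
          _ = mu w S := one_mul _
      · exact hchain.trans (h3 i)
    · have h5 : Φ (WtW col w (fun i => if P + 1 ≤ i then S else B' i)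
          (fun i => if P + 1 ≤ i then mc z else c' i) L (P + 1)) ≤
          Φ (EW col w S mc L P z * WtW col w B' c' L P) := by
        apply hΦ
        intro x
        rw [Pi.mul_apply]
        apply WtW_succ
        · intro i hi
          exact if_neg (by omega)
        · exact if_pos le_rfl
        · intro i hi
          exact if_neg (by omega)
        · exact if_pos le_rfl
        · intro i hi
          rw [← hS']
          exact h1 i
      refine h5.trans (h4.trans ?_)
      rw [pow_succ, mul_assoc]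
      exact mul_le_mul_of_nonneg_left hzΦ (by positivity)

/-- Weighted sums over the extensions of a history by at most `s` pairs. -/
noncomputable def KW {α : Type*} [Fintype α] (w : α → ℝ) (κ : ℝ) (P : ℕ) :
    ℕ → (Finset (ℕ × α) → ℝ) → Finset (ℕ × α) → ℝ
  | 0, f, h => f h
  | s + 1, f, h => KW w κ P s f h +
      κ * ∑ t ∈ range (P + 1), ∑ x, w x * KW w κ P s f (insert (t, x) h)

lemma KW_mono {α : Type*} [Fintype α] {w : α → ℝ} (hw0 : ∀ x, 0 ≤ w x) {κ : ℝ} (hκ : 0 ≤ κ)
    (P : ℕ) (s : ℕ) (f g : Finset (ℕ × α) → ℝ) (hfg : ∀ h, f h ≤ g h) :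
    ∀ h, KW w κ P s f h ≤ KW w κ P s g h := by
  induction s with
  | zero => exact hfg
  | succ s ih =>
    intro h
    unfold KW
    have h1 : ∑ t ∈ range (P + 1), ∑ x, w x * KW w κ P s f (insert (t, x) h) ≤
        ∑ t ∈ range (P + 1), ∑ x, w x * KW w κ P s g (insert (t, x) h) :=
      sum_le_sum (fun t _ => sum_le_sum (fun x _ => mul_le_mul_of_nonneg_left (ih _) (hw0 x)))
    have h2 := mul_le_mul_of_nonneg_left h1 hκ
    have h3 := ih h
    linarith

lemma KW_add {α : Type*} [Fintype α] (w : α → ℝ) (κ : ℝ) (P : ℕ) (s : ℕ)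
    (f g : Finset (ℕ × α) → ℝ) : ∀ h, KW w κ P s (fun x => f x + g x) h =
      KW w κ P s f h + KW w κ P s g h := by
  induction s with
  | zero => intro h; rfl
  | succ s ih =>
    intro h
    unfold KW
    rw [ih h]
    have h1 : ∑ t ∈ range (P + 1), ∑ x, w x * KW w κ P s (fun x => f x + g x) (insert (t, x) h) =
        ∑ t ∈ range (P + 1), ∑ x, w x * KW w κ P s f (insert (t, x) h) +
        ∑ t ∈ range (P + 1), ∑ x, w x * KW w κ P s g (insert (t, x) h) := by
      rw [← sum_add_distrib]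
      apply sum_congr rfl
      intro t _
      rw [← sum_add_distrib]
      apply sum_congr rfl
      intro x _
      rw [ih, mul_add]
    rw [h1]
    ring

lemma KW_smul {α : Type*} [Fintype α] (w : α → ℝ) (κ : ℝ) (P : ℕ) (s : ℕ) (a : ℝ)
    (f : Finset (ℕ × α) → ℝ) : ∀ h, KW w κ P s (fun x => a * f x) h = a * KW w κ P s f h := by
  induction s with
  | zero => intro h; rfl
  | succ s ih =>
    intro h
    unfold KW
    rw [ih h]
    have h1 : ∑ t ∈ range (P + 1), ∑ x, w x * KW w κ P s (fun x => a * f x) (insert (t, x) h) =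
        a * ∑ t ∈ range (P + 1), ∑ x, w x * KW w κ P s f (insert (t, x) h) := by
      rw [mul_sum]
      apply sum_congr rfl
      intro t _
      rw [mul_sum]
      apply sum_congr rfl
      intro x _
      rw [ih]
      ring
    rw [h1]
    ring

lemma KW_one {α : Type*} [Fintype α] (w : α → ℝ) (κ : ℝ) (P : ℕ) (s : ℕ) :
    ∀ h, KW w κ P s (fun _ => 1) h = (1 + κ * ((P + 1) * mass w)) ^ s := by
  induction s with
  | zero => intro h; rw [pow_zero]; rfl
  | succ s ih =>
    intro h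
    unfold KW
    rw [ih h]
    have h1 : ∑ t ∈ range (P + 1), ∑ x, w x * KW w κ P s (fun _ => 1) (insert (t, x) h) =
        (P + 1) * (mass w * (1 + κ * ((P + 1) * mass w)) ^ s) := by
      have h2 : ∀ t ∈ range (P + 1), ∑ x, w x * KW w κ P s (fun _ => 1) (insert (t, x) h) =
          mass w * (1 + κ * ((P + 1) * mass w)) ^ s := by
        intro t _
        rw [sum_congr rfl (fun x _ => by rw [ih (insert (t, x) h)]), ← sum_mul]
        rfl
      rw [sum_congr rfl h2, sum_const, nsmul_eq_mul, card_range]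
      push_cast
      ring
    rw [h1, pow_succ]
    ring

lemma KW_nonneg {α : Type*} [Fintype α] {w : α → ℝ} (hw0 : ∀ x, 0 ≤ w x) {κ : ℝ} (hκ : 0 ≤ κ)
    (P : ℕ) (s : ℕ) (f : Finset (ℕ × α) → ℝ) (hf : ∀ h, 0 ≤ f h) : ∀ h, 0 ≤ KW w κ P s f h := by
  induction s with
  | zero => exact hf
  | succ s ih =>
    intro h
    unfold KW
    have h1 : 0 ≤ ∑ t ∈ range (P + 1), ∑ x, w x * KW w κ P s f (insert (t, x) h) :=
      sum_nonneg (fun t _ => sum_nonneg (fun x _ => mul_nonneg (hw0 x) (ih _)))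
    exact add_nonneg (ih h) (mul_nonneg hκ h1)

lemma notGoodW {α : Type*} [Fintype α] {k : ℕ} (col : α → α → Fin k) {w : α → ℝ}
    (hw0 : ∀ x, 0 ≤ w x) (c : Fin k) (A : ℕ → Finset α) (β ρ : ℝ)
    (T : Finset ℕ) (b P : ℕ) (hT : ∀ i ∈ T, i ≤ P)
    {κ : ℝ} (hκ0 : 0 ≤ κ) (hκ : ∀ i, 1 ≤ κ * (ρ * mu w (A i)))
    (f : Finset (ℕ × α) → ℝ) (hf0 : ∀ h, 0 ≤ f h) (M : ℝ) (hM : 0 ≤ M)
    (hf : ∀ h : Finset (ℕ × α), (∀ p ∈ h, p.1 ≤ P → p.2 ∈ A p.1) →
      ¬ Good col w c A β ρ T b 0 h → M ≤ f h) (s : ℕ) :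
    ∀ h : Finset (ℕ × α), (∀ p ∈ h, p.1 ≤ P → p.2 ∈ A p.1) →
      ¬ Good col w c A β ρ T b s h → M ≤ KW w κ P s f h := by
  induction s with
  | zero => exact hf
  | succ s ih =>
    intro h hv hng
    have hKn : ∀ h, 0 ≤ KW w κ P s f h := KW_nonneg hw0 hκ0 P s f hf0
    have hnn : 0 ≤ κ * ∑ t ∈ range (P + 1), ∑ x, w x * KW w κ P s f (insert (t, x) h) :=
      mul_nonneg hκ0 (sum_nonneg (fun t _ => sum_nonneg (fun x _ => mul_nonneg (hw0 x) (hKn _))))
    have hnn2 := hKn h
    unfold KW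
    by_cases hg : Good col w c A β ρ T b s h
    · have h1 : ∃ i ∈ insert 0 T, ρ * mu w (A i) <
          mu w ((A i).filter (fun x => ¬ Good col w c A β ρ T b s (insert (i, x) h))) := by
        by_contra hcon
        push Not at hcon
        exact hng ⟨hg, hcon⟩
      obtain ⟨i, hi, hi2⟩ := h1
      have hiP : i ∈ range (P + 1) := by
        rw [mem_range]
        rw [mem_insert] at hi
        rcases hi with hi | hi
        · omega
        · have := hT i hi
          omega
      have h2 : mu w ((A i).filter (fun x => ¬ Good col w c A β ρ T b s (insert (i, x) h))) * M ≤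
          ∑ x, w x * KW w κ P s f (insert (i, x) h) := by
        unfold mu
        rw [sum_mul]
        calc ∑ x ∈ (A i).filter (fun x => ¬ Good col w c A β ρ T b s (insert (i, x) h)), w x * M ≤
            ∑ x ∈ (A i).filter (fun x => ¬ Good col w c A β ρ T b s (insert (i, x) h)),
              w x * KW w κ P s f (insert (i, x) h) := by
              apply sum_le_sum
              intro x hx
              rw [mem_filter] at hx
              apply mul_le_mul_of_nonneg_left _ (hw0 x)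
              apply ih _ _ hx.2
              intro p hp hpP
              rw [mem_insert] at hp
              rcases hp with hp | hp
              · rw [hp]; exact hx.1
              · exact hv p hp hpP
          _ ≤ ∑ x, w x * KW w κ P s f (insert (i, x) h) := by
              apply sum_le_sum_of_subset_of_nonneg (subset_univ _)
              intro x _ _
              exact mul_nonneg (hw0 x) (hKn _)
      have h3 : ∑ x, w x * KW w κ P s f (insert (i, x) h) ≤
          ∑ t ∈ range (P + 1), ∑ x, w x * KW w κ P s f (insert (t, x) h) :=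
        single_le_sum (f := fun t => ∑ x, w x * KW w κ P s f (insert (t, x) h))
          (fun t _ => sum_nonneg (fun x _ => mul_nonneg (hw0 x) (hKn _))) hiP
      have h4 : ρ * mu w (A i) * M ≤
          ∑ t ∈ range (P + 1), ∑ x, w x * KW w κ P s f (insert (t, x) h) :=
        (mul_le_mul_of_nonneg_right hi2.le hM).trans (h2.trans h3)
      have h5 := mul_le_mul_of_nonneg_left h4 hκ0
      have h6 := mul_le_mul_of_nonneg_right (hκ i) hM
      have h7 : κ * (ρ * mu w (A i) * M) = κ * (ρ * mu w (A i)) * M := by ring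
      linarith
    · have := ih h hv hg
      linarith

theorem chain_lemma {α : Type*} [Fintype α] [Nonempty α] {k : ℕ} (col : α → α → Fin k)
    (hsymm : ∀ a b, col a b = col b a) (D0 : Finset (Fin k)) (hD0 : (univ \ D0).Nonempty)
    (w : α → ℝ) (hw0 : ∀ x, 0 ≤ w x) (hw1 : ∀ x, w x ≤ 1) (hM : 0 < mass w) (Δ m P b L a : ℕ)
    (hm : 2 * k ≤ 2 ^ m)
    (hcond : 4 ^ P * k * (1 + (P + 1) * 2 ^ a * 2 ^ (m * P)) ^ Δ < 2 ^ (L * b))
    (hdead : eD col D0 w w ≤ (1 / 2) ^ (2 * (m * P) + 3) * mass w ^ 2) :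
    ChainLemma col D0 w Δ m P b L a := by
  have hmass : mu w univ = mass w := rfl
  have hdead' : 8 * ∑ z ∈ (univ : Finset α), w z * ∑ y ∈ (univ : Finset α),
      (if col z y ∈ D0 then w y else 0) ≤ ((1 / 2) ^ (m * P) * mu w univ) ^ 2 := by
    have h1 : ∑ z ∈ (univ : Finset α), w z * ∑ y ∈ (univ : Finset α),
        (if col z y ∈ D0 then w y else 0) = eD col D0 w w := rfl
    rw [h1, hmass]
    calc 8 * eD col D0 w w ≤ 8 * ((1 / 2) ^ (2 * (m * P) + 3) * mass w ^ 2) := by linarith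
      _ = ((1 / 2) ^ (m * P) * mass w) ^ 2 := by
          rw [pow_add, mul_pow, ← pow_mul]
          ring
  obtain ⟨κ, hκ⟩ : ∃ κ : ℝ, κ = 2 ^ a * 2 ^ (m * P) / mass w := ⟨_, rfl⟩
  have hκ0 : 0 ≤ κ := by rw [hκ]; positivity
  let Φ : ((Fin k × Finset (ℕ × α)) → ℝ) →ₗ[ℝ] ℝ :=
    { toFun := fun E => ∑ c0 : Fin k, KW w κ P Δ (fun h => E (c0, h)) ∅
      map_add' := by
        intro f g
        rw [← sum_add_distrib]
        apply sum_congr rfl
        intro c0 _
        exact KW_add w κ P Δ (fun h => f (c0, h)) (fun h => g (c0, h)) ∅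
      map_smul' := by
        intro a f
        rw [RingHom.id_apply, smul_eq_mul, mul_sum]
        apply sum_congr rfl
        intro c0 _
        exact KW_smul w κ P Δ a (fun h => f (c0, h)) ∅ }
  have hΦ : ∀ E, Φ E = ∑ c0 : Fin k, KW w κ P Δ (fun h => E (c0, h)) ∅ := fun _ => rfl
  obtain ⟨B, c, h0, h1, h2, h3, h4⟩ := chainW col D0 hD0 hw0 m hm L P univ (by rw [hmass]; exact hM)
    hdead' Φ (by
    intro f g hfg
    rw [hΦ, hΦ]
    apply sum_le_sum
    intro c0 _
    exact KW_mono hw0 hκ0 P Δ _ _ (fun h => hfg (c0, h)) ∅)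
  rw [hmass] at h3
  refine ⟨B, c, h0, h2, h3, ?_⟩
  intro c0
  by_contra hng
  rw [hΦ, hΦ] at h4
  have h5 : ∑ c1 : Fin k, KW w κ P Δ (fun _ => (1:ℝ)) ∅ =
      k * (1 + (P + 1) * 2 ^ a * 2 ^ (m * P)) ^ Δ := by
    rw [sum_const, nsmul_eq_mul, card_univ, Fintype.card_fin, KW_one]
    congr 2
    rw [hκ]
    field_simp
  have h6 : (2:ℝ) ^ (L * b) ≤ KW w κ P Δ (fun h => WtW col w B c L P (c0, h)) ∅ := by
    apply notGoodW col hw0 c0 B ((1 / 2) ^ L) ((1 / 2) ^ a)
      ((Icc 1 P).filter (fun i => c i = c0)) b P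
      (fun i hi => (mem_Icc.mp (mem_filter.mp hi).1).2) hκ0 ?_
      (fun h => WtW col w B c L P (c0, h)) (fun h => WtW_nonneg _ _ _ _ _ _ _) _ (by positivity)
      ?_ Δ ∅ (by simp) hng
    · intro i
      have h8 := h3 i
      rw [hκ]
      have h9 : (1:ℝ) = 2 ^ a * 2 ^ (m * P) / mass w * ((1 / 2) ^ a * ((1 / 2) ^ (m * P) *
          mass w)) := by
        rw [one_div_pow, one_div_pow]
        field_simp
      calc (1:ℝ) = 2 ^ a * 2 ^ (m * P) / mass w * ((1 / 2) ^ a * ((1 / 2) ^ (m * P) *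
          mass w)) := h9
        _ ≤ 2 ^ a * 2 ^ (m * P) / mass w * ((1 / 2) ^ a * mu w (B i)) := by gcongr
    · intro h hv hb
      have h9 : b ≤ (((Icc 1 P).filter (fun i => c i = c0)).filter
          (fun i => Bd col w c0 B ((1 / 2) ^ L) i h)).card := by
        by_contra hcon
        push Not at hcon
        exact hb hcon
      unfold WtW
      rw [if_pos hv]
      apply pow_le_pow_right₀ (by norm_num)
      apply Nat.mul_le_mul_left
      rw [filter_filter] at h9
      exact h9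
  have h7 : KW w κ P Δ (fun h => WtW col w B c L P (c0, h)) ∅ ≤
      ∑ c1 : Fin k, KW w κ P Δ (fun h => WtW col w B c L P (c1, h)) ∅ :=
    single_le_sum (f := fun c1 => KW w κ P Δ (fun h => WtW col w B c L P (c1, h)) ∅)
      (fun c1 _ => KW_nonneg hw0 hκ0 _ _ _ (fun h => WtW_nonneg _ _ _ _ _ _ _) _) (mem_univ c0)
  rw [h5] at h4
  have h8 : (4:ℝ) ^ P * k * (1 + (P + 1) * 2 ^ a * 2 ^ (m * P)) ^ Δ < 2 ^ (L * b) := by
    exact_mod_cast hcond
  linarith

end Pool.Agent.H99.KR
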