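import Pool.Agent.H99.KR.DynMainS

/-! The number of tiles: `2 ^ (C Δ)` from linear exponents of the static property. -/

namespace Pool.Agent.H99.KR

open Finset Classical Pool.Agent.H21.Poly Pool.Agent.H21.Tile

lemma FlexProp.mono {α : Type*} {k K : ℕ} {F : (r : ℕ) → SimpleGraph (Fin r)}
    {col : α → α → Fin k} {σ σ' : ℝ} (h : FlexProp F col K σ) (hσ : σ' ≤ σ) :
    FlexProp F col K σ' := by
  intro S hS
  have h0 : (0:ℝ) ≤ S.card := Nat.cast_nonneg _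
  have h1 : σ' * S.card ≤ σ * S.card := mul_le_mul_of_nonneg_right hσ h0
  obtain ⟨Φ, X, g, a1, a2, a3, a4, a5⟩ := h S (hS.trans h1)
  exact ⟨Φ, X, g, a1, a2, a3, h1.trans a4, a5⟩

/-- linear exponents -/
def Lin (C0 Δ : ℕ) : ℕ → ℕ → ℕ := fun _ p => C0 * (Δ + p)

lemma srF_le (C0 Δ : ℕ) (hΔ : 1 ≤ Δ) (r : ℕ) :
    srF (Lin C0 Δ) r ≤ (3 * (C0 + 1)) ^ (r + 1) * Δ := by
  induction r with
  | zero =>
    rw [srF, zero_add, pow_one]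
    nlinarith
  | succ r ih =>
    rw [srF, Lin]
    obtain ⟨X, hX⟩ : ∃ X, X = (3 * (C0 + 1)) ^ (r + 1) * Δ := ⟨_, rfl⟩
    have h1 : Δ ≤ X := by
      rw [hX]
      exact Nat.le_mul_of_pos_left _ (by positivity)
    rw [← hX] at ih
    have h2 : (3 * (C0 + 1)) ^ (r + 1 + 1) * Δ = 3 * (C0 + 1) * X := by
      rw [hX, pow_succ (3 * (C0 + 1)) (r + 1)]; ring
    rw [h2]
    have h3 : C0 * (Δ + (srF (Lin C0 Δ) r + 1)) + srF (Lin C0 Δ) r + 1 ≤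
        (C0 + 1) * (Δ + (srF (Lin C0 Δ) r + 1)) := by nlinarith
    calc C0 * (Δ + (srF (Lin C0 Δ) r + 1)) + srF (Lin C0 Δ) r + 1 ≤
          (C0 + 1) * (Δ + (srF (Lin C0 Δ) r + 1)) := h3
      _ ≤ (C0 + 1) * (X + (X + X)) := by
          apply Nat.mul_le_mul_left
          omega
      _ = 3 * (C0 + 1) * X := by ring

lemma BrF_le (C0 Δ : ℕ) (hΔ : 1 ≤ Δ) (r k : ℕ) (hr : r < k) :
    BrF (Lin C0 Δ) r ≤ (3 * (C0 + 1)) ^ (k + 1) * Δ := by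
  have h1 := srF_le C0 Δ hΔ r
  obtain ⟨X, hX⟩ : ∃ X, X = (3 * (C0 + 1)) ^ (r + 1) * Δ := ⟨_, rfl⟩
  have h2 : Δ ≤ X := by
    rw [hX]
    exact Nat.le_mul_of_pos_left _ (by positivity)
  rw [← hX] at h1
  rw [BrF, Lin]
  calc C0 * (Δ + (srF (Lin C0 Δ) r + 1)) ≤ (C0 + 1) * (X + (X + X)) :=
        Nat.mul_le_mul (by omega) (by omega)
    _ = (3 * (C0 + 1)) ^ (r + 1 + 1) * Δ := by
        rw [hX, pow_succ (3 * (C0 + 1)) (r + 1)]; ring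
    _ ≤ (3 * (C0 + 1)) ^ (k + 1) * Δ := by
        apply Nat.mul_le_mul_right
        exact Nat.pow_le_pow_right (by omega) (by omega)

lemma SgF_le (C0 Δ : ℕ) (hΔ : 1 ≤ Δ) (k : ℕ) (hk : 0 < k) :
    SgF (Lin C0 Δ) k (k - 1) ≤ k * ((3 * (C0 + 1)) ^ (k + 1) * Δ) := by
  unfold SgF
  calc ∑ i ∈ range (k - 1 + 1), BrF (Lin C0 Δ) (k - 1 - i) ≤
        ∑ i ∈ range (k - 1 + 1), (3 * (C0 + 1)) ^ (k + 1) * Δ :=
        sum_le_sum fun i _ => BrF_le C0 Δ hΔ _ k (by omega)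
    _ = k * ((3 * (C0 + 1)) ^ (k + 1) * Δ) := by
        rw [sum_const, card_range, smul_eq_mul, Nat.sub_add_cancel hk]

lemma GsF_le (C0 Δ : ℕ) (hΔ : 1 ≤ Δ) (k : ℕ) (hk : 0 < k) (j : ℕ) :
    GsF (Lin C0 Δ) k j ≤ 2 ^ (j * (k + (3 * (C0 + 1)) ^ (k + 1) * Δ + 2)) := by
  obtain ⟨E, hE⟩ : ∃ E, E = (3 * (C0 + 1)) ^ (k + 1) * Δ := ⟨_, rfl⟩
  rw [← hE]
  induction j with
  | zero => rw [GsF, zero_mul, pow_zero]
  | succ j ih =>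
    rw [GsF]
    have h1 : k.choose (j + 1) ≤ 2 ^ k := Nat.choose_le_two_pow _ _
    have h2 : BrF (Lin C0 Δ) (k - 1 - (j + 1)) ≤ E := by
      rw [hE]; exact BrF_le C0 Δ hΔ _ k (by omega)
    have h3 : 2 ^ (BrF (Lin C0 Δ) (k - 1 - (j + 1)) + 1) ≤ 2 ^ (E + 1) :=
      Nat.pow_le_pow_right (by norm_num) (by omega)
    have h4 : 1 ≤ 2 ^ k * 2 ^ (E + 1) * 2 ^ (j * (k + E + 2)) :=
      Nat.one_le_iff_ne_zero.mpr (by positivity)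
    calc k.choose (j + 1) * 2 ^ (BrF (Lin C0 Δ) (k - 1 - (j + 1)) + 1) * GsF (Lin C0 Δ) k j + 1 ≤
          2 ^ k * 2 ^ (E + 1) * 2 ^ (j * (k + E + 2)) + 1 := by gcongr
      _ ≤ 2 ^ k * 2 ^ (E + 1) * 2 ^ (j * (k + E + 2)) * 2 := by omega
      _ = 2 ^ ((j + 1) * (k + E + 2)) := by
          rw [← pow_add, ← pow_add, ← pow_succ]; congr 1; ring

lemma MD_le (Δ : ℕ) : MD Δ ≤ 2 ^ (3 * Δ) := by
  have h1 : Δ + 1 ≤ 2 ^ Δ := Nat.lt_two_pow_self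
  calc MD Δ ≤ (Δ + 1) ^ 3 := by unfold MD; nlinarith
    _ ≤ (2 ^ Δ) ^ 3 := Nat.pow_le_pow_left h1 3
    _ = 2 ^ (3 * Δ) := by rw [← pow_mul, mul_comm]

/-- `(1 - 1/(2K))^(2 K m) ≤ 2^(-m)` -/
lemma pow_half (K m : ℕ) (hK : 0 < K) : (1 - 1 / (2 * (K : ℝ))) ^ (2 * K * m) ≤ (1 / 2) ^ m := by
  have hKR : (1:ℝ) ≤ K := by exact_mod_cast hK
  have h0 : (0:ℝ) ≤ 1 - 1 / (2 * K) := by
    have : (1:ℝ) / (2 * K) ≤ 1 := by rw [div_le_one (by positivity)]; linarith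
    linarith
  rw [pow_mul]
  apply pow_le_pow_left₀ (pow_nonneg h0 _)
  have h1 : (1 - 1 / (2 * (K : ℝ))) ≤ Real.exp (-(1 / (2 * K))) := by
    have := Real.add_one_le_exp (-(1 / (2 * (K : ℝ))))
    linarith
  calc (1 - 1 / (2 * (K : ℝ))) ^ (2 * K) ≤ (Real.exp (-(1 / (2 * K)))) ^ (2 * K) :=
        pow_le_pow_left₀ h0 h1 _
    _ = Real.exp (-1) := by
        rw [← Real.exp_nat_mul]
        congr 1
        push_cast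
        field_simp
    _ ≤ 1 / 2 := by
        rw [Real.exp_neg, ← one_div]
        apply one_div_le_one_div_of_le (by norm_num)
        have := Real.add_one_le_exp (1:ℝ)
        linarith

theorem count_tiles (k : ℕ) (hk : 0 < k) (C0 K0 F0 : ℕ) : ∃ C : ℕ, ∀ Δ : ℕ, 1 ≤ Δ →
    ∀ {α : Type} [Fintype α] [Nonempty α] (F : (r : ℕ) → SimpleGraph (Fin r))
    (col : α → α → Fin k), (∀ a b, col a b = col b a) →
    (∀ r p, r < k → StaticP F col Δ r p (C0 * (Δ + p)) (C0 * (Δ + p))) →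
    ∀ K : ℕ, 0 < K → K ≤ 2 ^ (K0 * Δ) → LinRam F col K →
    ∀ σF : ℝ, (1 / 2) ^ (2 ^ (F0 * Δ)) ≤ σF → FlexProp F col K σF →
    ∀ V : Finset α, Tiles F col V (2 ^ (C * Δ)) := by
  obtain ⟨E, hE⟩ : ∃ E, E = (3 * (C0 + 1)) ^ (k + 1) := ⟨_, rfl⟩
  obtain ⟨F1, hF1⟩ : ∃ F1, F1 = 2 * (k * E) + 1 + 3 + k * (k + E + 2) := ⟨_, rfl⟩
  refine ⟨k * (k + E + 2) + (K0 + F0 + F1 + 1) + 3, ?_⟩
  intro Δ hΔ α _ _ F col hsymm hstat K hK hKK hlin σF hσF hflex V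
  have hflex' := FlexProp.mono hflex hσF
  obtain ⟨σ, hσ⟩ : ∃ σ : ℝ, σ = (1 / 2) ^ (2 ^ (F0 * Δ)) := ⟨_, rfl⟩
  rw [← hσ] at hflex'
  have hσ0 : 0 < σ := by rw [hσ]; positivity
  obtain ⟨G, hG⟩ : ∃ G, G = GsF (Lin C0 Δ) k (k - 1) := ⟨_, rfl⟩
  obtain ⟨Sm, hSm⟩ : ∃ S, S = SgF (Lin C0 Δ) k (k - 1) := ⟨_, rfl⟩
  obtain ⟨g, hg⟩ : ∃ g, g = k * (k + E * Δ + 2) := ⟨_, rfl⟩
  have hG0 : 0 < G := by rw [hG]; exact GsF_pos _ _ _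
  have hGg : G ≤ 2 ^ g := by
    rw [hG, hg]
    refine (GsF_le C0 Δ hΔ k hk (k - 1)).trans (Nat.pow_le_pow_right (by norm_num) ?_)
    rw [hE]
    exact Nat.mul_le_mul_right _ (by omega)
  have hSmE : Sm ≤ k * (E * Δ) := by
    rw [hSm, hE]; exact SgF_le C0 Δ hΔ k hk
  obtain ⟨m, hm⟩ : ∃ m, m = 2 * Sm + 1 + 2 ^ (F0 * Δ) + (3 * Δ + g) := ⟨_, rfl⟩
  obtain ⟨τ, hτ⟩ : ∃ τ : ℝ, τ = (1 / 2) ^ (2 * Sm + 1) * σ / (MD Δ * G) := ⟨_, rfl⟩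
  have hMD0 : 0 < MD Δ := by unfold MD; omega
  have hmτ : (1 / 2 : ℝ) ^ m ≤ τ := by
    have h1 : MD Δ * G ≤ 2 ^ (3 * Δ + g) := by
      rw [pow_add]; exact Nat.mul_le_mul (MD_le Δ) hGg
    have h1R : (MD Δ : ℝ) * G ≤ 2 ^ (3 * Δ + g) := by exact_mod_cast h1
    have h2 : (0:ℝ) < (MD Δ : ℝ) * G := by
      have a1 : (0:ℝ) < MD Δ := by exact_mod_cast hMD0
      have a2 : (0:ℝ) < G := by exact_mod_cast hG0
      positivity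
    rw [hτ, le_div_iff₀ h2, hσ, hm, pow_add (1 / 2 : ℝ) (2 * Sm + 1 + 2 ^ (F0 * Δ)),
      pow_add (1 / 2 : ℝ) (2 * Sm + 1)]
    have h3 : (1 / 2 : ℝ) ^ (3 * Δ + g) * (MD Δ * G) ≤ 1 := by
      calc (1 / 2 : ℝ) ^ (3 * Δ + g) * (MD Δ * G) ≤ (1 / 2 : ℝ) ^ (3 * Δ + g) * 2 ^ (3 * Δ + g) := by
            gcongr
        _ = 1 := by rw [← mul_pow]; norm_num
    calc (1 / 2 : ℝ) ^ (2 * Sm + 1) * (1 / 2) ^ 2 ^ (F0 * Δ) * (1 / 2) ^ (3 * Δ + g) *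
          (MD Δ * G) = (1 / 2 : ℝ) ^ (2 * Sm + 1) * (1 / 2) ^ 2 ^ (F0 * Δ) *
            ((1 / 2) ^ (3 * Δ + g) * (MD Δ * G)) := by ring
      _ ≤ (1 / 2 : ℝ) ^ (2 * Sm + 1) * (1 / 2) ^ 2 ^ (F0 * Δ) * 1 := by gcongr
      _ = _ := by ring
  have hfin := dyn_mainS (Δ := Δ) F col hsymm hK hlin hk (Lin C0 Δ) hstat σ hσ0 hflex' τ
    (by rw [hτ, hSm, hG]) (2 * K * m) (2 * K * 2 ^ (F0 * Δ))
    ((pow_half K m hK).trans hmτ) (by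
      have h1 := pow_half K (2 ^ (F0 * Δ)) hK
      rw [← hσ] at h1
      calc (1 - 1 / (2 * (K : ℝ))) ^ (2 * K * 2 ^ (F0 * Δ)) * (1 / σ) ≤ σ * (1 / σ) := by gcongr
        _ = 1 := by field_simp) V
  rw [← hG] at hfin
  refine hfin.mono ?_
  -- the count
  have e1 : g ≤ k * (k + E + 2) * Δ := by
    rw [hg, mul_assoc]
    apply Nat.mul_le_mul_left
    calc k + E * Δ + 2 ≤ k * Δ + E * Δ + 2 * Δ := by nlinarith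
      _ = (k + E + 2) * Δ := by ring
  have e2 : m ≤ 2 ^ (F0 * Δ) + F1 * Δ := by
    have h1 : F1 * Δ = 2 * (k * (E * Δ)) + Δ + 3 * Δ + k * (k + E + 2) * Δ := by rw [hF1]; ring
    rw [hm, h1]
    omega
  have e3 : m ≤ 2 ^ ((F0 + F1 + 1) * Δ) := by
    have h1 : F1 * Δ ≤ 2 ^ (F1 * Δ) := Nat.lt_two_pow_self.le
    have h2 : 2 ^ (F0 * Δ) ≤ 2 ^ ((F0 + F1) * Δ) :=
      Nat.pow_le_pow_right (by norm_num) (by nlinarith)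
    have h3 : 2 ^ (F1 * Δ) ≤ 2 ^ ((F0 + F1) * Δ) :=
      Nat.pow_le_pow_right (by norm_num) (by nlinarith)
    calc m ≤ 2 ^ ((F0 + F1) * Δ) * 2 := by omega
      _ = 2 ^ ((F0 + F1) * Δ + 1) := (pow_succ _ _).symm
      _ ≤ 2 ^ ((F0 + F1 + 1) * Δ) := Nat.pow_le_pow_right (by norm_num) (by nlinarith)
  obtain ⟨Z, hZ⟩ : ∃ Z, Z = 2 ^ (K0 * Δ) * 2 ^ ((F0 + F1 + 1) * Δ) := ⟨_, rfl⟩
  have hZ1 : 1 ≤ Z := by rw [hZ]; exact Nat.one_le_iff_ne_zero.mpr (by positivity)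
  have e4 : K * m ≤ Z := by rw [hZ]; exact Nat.mul_le_mul hKK e3
  have e5 : K * 2 ^ (F0 * Δ) ≤ Z := by
    rw [hZ]
    apply Nat.mul_le_mul hKK
    exact Nat.pow_le_pow_right (by norm_num) (by nlinarith)
  have e6 : 2 * K * m + 2 * K * 2 ^ (F0 * Δ) + 3 ≤ 8 * Z := by nlinarith
  calc G * (2 * K * m + 2 * K * 2 ^ (F0 * Δ) + 3) ≤ 2 ^ g * (8 * Z) := Nat.mul_le_mul hGg e6
    _ = 2 ^ (g + (K0 * Δ + (F0 + F1 + 1) * Δ) + 3) := by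
        rw [hZ, pow_add 2 (g + _) 3, pow_add 2 g, pow_add 2 (K0 * Δ)]; ring
    _ ≤ 2 ^ ((k * (k + E + 2) + (K0 + F0 + F1 + 1) + 3) * Δ) := by
        apply Nat.pow_le_pow_right (by norm_num)
        have h1 : (k * (k + E + 2) + (K0 + F0 + F1 + 1) + 3) * Δ =
            k * (k + E + 2) * Δ + (K0 * Δ + (F0 + F1 + 1) * Δ) + 3 * Δ := by ring
        omega

end Pool.Agent.H99.KR
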