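import Pool.Agent.H21.Poly.WAbsorb
import Pool.Agent.H21.Poly.Static

/-! Weighted chains, histories, good histories (Theorem R of helper15 with weights, dead colours
and the time `0`), absorption property, static property.

`w : α → ℝ` with values in `[0,1]`, `mu w A = ∑ x ∈ A, w x`.  A chain is `A : ℕ → Finset α`,
increasing, `A P` the largest set; the times are `1, …, P`, and time `0` belongs to the smallest
set `A 0`.  `T ⊆ {1, …, P}` is the set of the times of one colour `c`.  Histories are finite sets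
of pairs (time, vertex). -/

namespace Pool.Agent.H99.KR

open Finset Classical Pool.Agent.H21.Poly Pool.Agent.H21.Tile

section defs

variable {α : Type*} {k : ℕ}

/-- measure of a set -/
noncomputable def mu (w : α → ℝ) (A : Finset α) : ℝ := ∑ x ∈ A, w x

/-- The candidates at time `i`: the points of `A i` joined in colour `c` to all entries of `h` of
earlier time. -/
noncomputable def Cd (col : α → α → Fin k) (c : Fin k) (A : ℕ → Finset α) (i : ℕ)
    (h : Finset (ℕ × α)) : Finset α :=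
  (A i).filter (fun y => ∀ p ∈ h, p.1 < i → col y p.2 = c)

/-- time `i` is bad for the history `h` -/
def Bd (col : α → α → Fin k) (w : α → ℝ) (c : Fin k) (A : ℕ → Finset α) (β : ℝ) (i : ℕ)
    (h : Finset (ℕ × α)) : Prop :=
  mu w (Cd col c A i h) < β * mu w (A i)

/-- good histories -/
def Good (col : α → α → Fin k) (w : α → ℝ) (c : Fin k) (A : ℕ → Finset α) (β ρ : ℝ)
    (T : Finset ℕ) (b : ℕ) : ℕ → Finset (ℕ × α) → Prop
  | 0, h => (T.filter (fun i => Bd col w c A β i h)).card < b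
  | s + 1, h => Good col w c A β ρ T b s h ∧ ∀ i ∈ insert 0 T,
      mu w ((A i).filter (fun x => ¬ Good col w c A β ρ T b s (insert (i, x) h))) ≤
        ρ * mu w (A i)

/-- history of the vertex `v` of `H` when the vertices of `S` are embedded by `φ` at the times
`t` -/
noncomputable def hist {n : ℕ} (H : SimpleGraph (Fin n)) (S : Finset (Fin n)) (t : Fin n → ℕ)
    (φ : Fin n → α) (v : Fin n) : Finset (ℕ × α) :=
  (S.filter (H.Adj v)).image (fun u => (t u, φ u))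

end defs

section weighted

variable {α : Type*} [Fintype α] {k : ℕ} (col : α → α → Fin k)

/-- THE CHAIN LEMMA.  `m`: `2 k ≤ 2 ^ m`; `σ = 2 ^ (- m P)`, `β = 2 ^ (- L)`, `ρ = 2 ^ (- a)`. -/
def ChainLemma (D0 : Finset (Fin k)) (w : α → ℝ) (Δ m P b L a : ℕ) : Prop :=
  ∃ (A : ℕ → Finset α) (cc : ℕ → Fin k),
    (∀ i, cc i ∉ D0) ∧ (∀ i j, i ≤ j → A i ⊆ A j) ∧
    (∀ i, (1 / 2 : ℝ) ^ (m * P) * mass w ≤ mu w (A i)) ∧
    ∀ c, Good col w c A ((1 / 2) ^ L) ((1 / 2) ^ a) ((Icc 1 P).filter (fun i => cc i = c)) b Δ ∅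

/-- THE EMBEDDING LEMMA with a set `S0` of vertices which are embedded before, at time `0`. -/
def EmbLemma (w : α → ℝ) (Δ P b L a : ℕ) (A : ℕ → Finset α) (c : Fin k) (T : Finset ℕ) : Prop :=
  ∀ (n : ℕ) (H : SimpleGraph (Fin n)), (∀ x, (univ.filter (H.Adj x)).card ≤ Δ) →
    ∀ (S0 : Finset (Fin n)) (φ0 : Fin n → α) (U : Finset α),
      Set.InjOn φ0 S0 →
      (∀ v ∉ S0, Good col w c A ((1 / 2) ^ L) ((1 / 2) ^ a) T b (Δ - (S0.filter (H.Adj v)).card)
        (hist H S0 (fun _ => 0) φ0 v)) →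
      (∀ i ∈ T, ((U.card : ℝ) + n) ≤ (1 / 2) ^ (L + 1) * mu w (A i)) →
      ∃ φ : Fin n → α, Function.Injective φ ∧ (∀ v ∈ S0, φ v = φ0 v) ∧
        (∀ v ∉ S0, w (φ v) ≠ 0 ∧ φ v ∉ U ∧ ∃ i ∈ T, φ v ∈ A i) ∧
        ∀ u v, H.Adj u v → u ∉ S0 → col (φ u) (φ v) = c

end weighted

section absorb

variable {α : Type*} [Fintype α] {k : ℕ}

/-- size of a ball of radius `3` -/
def MD (Δ : ℕ) : ℕ := 1 + Δ + Δ ^ 2 + Δ ^ 3

/-- Absorption: small sets of vertices of weight `0` with large `c`-degree to `w'` are completed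
to a monochromatic tile inside the support of `w`. -/
def ABS (F : (r : ℕ) → SimpleGraph (Fin r)) (col : α → α → Fin k) (Δ : ℕ) (c : Fin k)
    (w w' : α → ℝ) (δ lam : ℝ) : Prop :=
  ∀ L U : Finset α, (∀ v ∈ L, w v = 0) → (∀ v ∈ L, δ * mass w' ≤ nbw col {c} w' v) →
    ((U.card : ℝ) + MD Δ * L.card) ≤ lam * mass w' →
    ∃ Y : Finset α, (∀ y ∈ Y, w y ≠ 0) ∧ Disjoint Y U ∧ Y.card ≤ MD Δ * L.card ∧
      MonoSet F col (L ∪ Y)

/-- The static property with `r + 1` living colours, exponents `B` (mass) and `B'` (size). -/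
def StaticP (F : (r : ℕ) → SimpleGraph (Fin r)) (col : α → α → Fin k) (Δ r p B B' : ℕ) : Prop :=
  ∀ D : Finset (Fin k), (univ \ D).card = r + 1 → ∀ w : α → ℝ, (∀ x, 0 ≤ w x) →
    (∀ x, w x ≤ 1) → eD col D w w ≤ (1 / 2) ^ B * mass w ^ 2 →
    ∃ c, c ∉ D ∧ ∃ w' : α → ℝ, (∀ x, 0 ≤ w' x) ∧ (∀ x, w' x ≤ w x) ∧
      (1 / 2) ^ B * mass w ≤ mass w' ∧ ABS F col Δ c w w' ((1 / 2) ^ p) ((1 / 2) ^ B')

end absorb

end Pool.Agent.H99.KR
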