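import Pool.Agent.H99.KR.DynS

/-! Combining the stages (adapted from H21/Poly/DynMain): the exponents of the static property are
an arbitrary function `Bf r p` (`r + 1` living colours, `δ = 2 ^ (-p)`). -/

namespace Pool.Agent.H99.KR

open Finset Classical Pool.Agent.H21.Poly Pool.Agent.H21.Tile

/-- exponents of the sparsity parameters, indexed by the number of living colours -/
def srF (Bf : ℕ → ℕ → ℕ) : ℕ → ℕ
  | 0 => 1
  | r + 1 => Bf r (srF Bf r + 1) + srF Bf r + 1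

/-- exponents of the static property -/
def BrF (Bf : ℕ → ℕ → ℕ) (r : ℕ) : ℕ := Bf r (srF Bf r + 1)

/-- number of absorption steps -/
def GsF (Bf : ℕ → ℕ → ℕ) (k : ℕ) : ℕ → ℕ
  | 0 => 1
  | j + 1 => k.choose (j + 1) * 2 ^ (BrF Bf (k - 1 - (j + 1)) + 1) * GsF Bf k j + 1

/-- exponents of the sizes -/
def SgF (Bf : ℕ → ℕ → ℕ) (k j : ℕ) : ℕ := ∑ i ∈ range (j + 1), BrF Bf (k - 1 - i)

lemma GsF_pos (Bf : ℕ → ℕ → ℕ) (k j : ℕ) : 0 < GsF Bf k j := by
  cases j
  · exact Nat.one_pos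
  · exact Nat.succ_pos _

lemma SgF_succ (Bf : ℕ → ℕ → ℕ) (k j : ℕ) :
    SgF Bf k (j + 1) = SgF Bf k j + BrF Bf (k - 1 - (j + 1)) := by
  unfold SgF; rw [sum_range_succ]

lemma SgF_mono (Bf : ℕ → ℕ → ℕ) (k : ℕ) {i j : ℕ} (h : i ≤ j) : SgF Bf k i ≤ SgF Bf k j := by
  unfold SgF
  apply sum_le_sum_of_subset_of_nonneg
  · intro x hx
    rw [mem_range] at hx ⊢
    omega
  · intro _ _ _; exact Nat.zero_le _

theorem dyn_mainS {α : Type*} [Fintype α] [Nonempty α] {k Δ K : ℕ}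
    (F : (r : ℕ) → SimpleGraph (Fin r))
    (col : α → α → Fin k) (hsymm : ∀ a b, col a b = col b a)
    (hK : 0 < K) (hlin : LinRam F col K) (hk : 0 < k)
    (Bf : ℕ → ℕ → ℕ) (hstat : ∀ r p, r < k → StaticP F col Δ r p (Bf r p) (Bf r p))
    (σF : ℝ) (hσF : 0 < σF) (hflex : FlexProp F col K σF)
    (τ : ℝ) (hτ : τ = (1 / 2) ^ (2 * SgF Bf k (k - 1) + 1) * σF /
      (MD Δ * GsF Bf k (k - 1)))
    (mg ms : ℕ) (hmg : (1 - 1 / (2 * (K : ℝ))) ^ mg ≤ τ)
    (hms : (1 - 1 / (2 * (K : ℝ))) ^ ms * (1 / σF) ≤ 1) (V : Finset α) :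
    Tiles F col V (GsF Bf k (k - 1) * (mg + ms + 3)) := by
  obtain ⟨G, hG⟩ : ∃ G, G = GsF Bf k (k - 1) := ⟨_, rfl⟩
  obtain ⟨Sm, hSm⟩ : ∃ S, S = SgF Bf k (k - 1) := ⟨_, rfl⟩
  rw [← hG, ← hSm] at hτ
  have hGR : (1:ℝ) ≤ G := by rw [hG]; exact_mod_cast GsF_pos Bf k (k - 1)
  have hΔR : (0:ℝ) ≤ Δ := Nat.cast_nonneg _
  have hΔ1 : (1:ℝ) ≤ MD Δ := by
    have : 1 ≤ MD Δ := by unfold MD; omega
    exact_mod_cast this
  obtain ⟨T, hT⟩ : ∃ T : ℝ, T = (1 / 2) ^ (2 * Sm + 1) * σF := ⟨_, rfl⟩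
  have hT0 : 0 < T := by rw [hT]; positivity
  have hτ0 : 0 ≤ τ := by rw [hτ]; positivity
  have hτG : MD Δ * (G * τ) = T := by
    rw [hτ, ← hT]; field_simp
  have hτ1 : MD Δ * τ ≤ T := by
    rw [← hτG]
    apply mul_le_mul_of_nonneg_left _ (by linarith)
    nlinarith
  have hτ2 : G * (MD Δ * τ) ≤ T := by
    rw [← hτG]
    have : 0 ≤ G * τ := by positivity
    nlinarith
  have h2T : T + MD Δ * τ ≤ (1 / 2) ^ (2 * Sm) * σF := by
    have : (1 / 2 : ℝ) ^ (2 * Sm) * σF = T + T := by rw [hT, pow_succ]; ring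
    linarith
  have hTσ : T ≤ σF := by
    rw [hT]
    apply mul_le_of_le_one_left hσF.le
    exact pow_le_one₀ (by norm_num) (by norm_num)
  have hstage : ∀ j, j + 1 ≤ k → StageP F col T (j + 1) ((1 / 2) ^ (SgF Bf k j) * σF)
      ((1 / 2) ^ (srF Bf (k - (j + 1)))) (GsF Bf k j * (MD Δ * τ))
      (GsF Bf k j * (mg + ms + 3)) := by
    intro j
    induction j with
    | zero =>
      intro hj
      have h1 := stage_oneS F col hK hlin hk (srF Bf (k - 1)) (BrF Bf (k - 1)) (hstat _ _ (by omega)) σF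
        hσF hflex τ hτ0 mg ms hmg hms T (by
          refine h2T.trans ?_
          rw [← mul_assoc, ← pow_add]
          apply mul_le_mul_of_nonneg_right _ hσF.le
          apply half_pow_anti
          have : SgF Bf k 0 ≤ Sm := by rw [hSm]; exact SgF_mono Bf k (Nat.zero_le _)
          have h0 : SgF Bf k 0 = BrF Bf (k - 1) := by
            unfold SgF; rw [zero_add, sum_range_one, Nat.sub_zero]
          omega) hTσ
      have h0 : SgF Bf k 0 = BrF Bf (k - 1) := by
        unfold SgF; rw [zero_add, sum_range_one, Nat.sub_zero]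
      rw [h0]
      simpa [GsF] using h1
    | succ j ih =>
      intro hj
      have h1 := ih (by omega)
      have hsr : srF Bf (k - (j + 1)) = BrF Bf (k - 1 - (j + 1)) + srF Bf (k - 1 - (j + 1)) + 1 := by
        rw [show k - (j + 1) = (k - 1 - (j + 1)) + 1 by omega, srF, BrF]
      have hSg := SgF_succ Bf k j
      have h2 := stage_succS F col hsymm hK hlin (j + 1) (by omega)
        (srF Bf (k - (j + 1))) (srF Bf (k - 1 - (j + 1))) (BrF Bf (k - 1 - (j + 1)))
        (by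
          rw [BrF, show k - (j + 1) - 1 = k - 1 - (j + 1) by omega]
          exact hstat _ _ (by omega)) hsr.ge
        ((1 / 2) ^ (SgF Bf k j) * σF) (by positivity) τ hτ0 mg hmg T (by
          refine h2T.trans ?_
          rw [← mul_assoc, ← mul_assoc, ← pow_add, ← pow_add]
          apply mul_le_mul_of_nonneg_right _ hσF.le
          apply half_pow_anti
          have : SgF Bf k (j + 1) ≤ Sm := by
            rw [hSm]; exact SgF_mono Bf k (by omega)
          omega) (GsF Bf k j * (MD Δ * τ)) (by positivity) (GsF Bf k j * (mg + ms + 3)) h1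
        (k.choose (j + 1) * 2 ^ (BrF Bf (k - 1 - (j + 1)) + 1)) rfl
      have e1 : (1 / 2 : ℝ) ^ (BrF Bf (k - 1 - (j + 1))) * ((1 / 2) ^ (SgF Bf k j) * σF) =
          (1 / 2) ^ (SgF Bf k (j + 1)) * σF := by
        rw [hSg, pow_add]; ring
      have e2 : (((k.choose (j + 1) * 2 ^ (BrF Bf (k - 1 - (j + 1)) + 1) : ℕ) : ℝ)) *
          (GsF Bf k j * (MD Δ * τ)) + MD Δ * τ =
          GsF Bf k (j + 1) * (MD Δ * τ) := by
        rw [GsF]; push_cast; ring
      rw [e1, e2] at h2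
      rw [show k - (j + 1 + 1) = k - 1 - (j + 1) by omega]
      apply h2.mono_Y
      rw [GsF]
      nlinarith
  have hfin := hstage (k - 1) (by omega) V (fun _ => False) 0 0 le_rfl (by
    rw [zero_add, ← hG]; exact hτ2) (by intro v h; exact h.elim) (by
    intro D ζ R' hD _ hζ0 _ _ hζm hζs
    have hDu : D = univ := by
      apply eq_univ_of_card
      rw [Fintype.card_fin]; omega
    have hR' : R' = ∅ := by
      by_contra hne
      obtain ⟨v, hv⟩ := nonempty_iff_ne_empty.mpr hne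
      have h1 := hζs v hv
      rw [hDu, nbw_univ] at h1
      rw [show k - (k - 1 + 1) = 0 by omega, srF, pow_one] at h1
      have h2 : (0:ℝ) < R'.card := by exact_mod_cast card_pos.mpr ⟨v, hv⟩
      have h3 : 0 < (1 / 2 : ℝ) ^ (SgF Bf k (k - 1)) * σF * R'.card := by positivity
      linarith
    subst hR'
    exact ⟨∅, by simp, by simp, by rw [union_empty]; exact Tiles.empty⟩)
  obtain ⟨U, hU1, _, hU3⟩ := hfin
  have hU : U = ∅ := by
    rw [← subset_empty]
    intro v hv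
    exact (hU1 v hv).elim
  rw [hU, union_empty, zero_add] at hU3
  exact hU3

end Pool.Agent.H99.KR
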