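import Pool.Agent.H99.KR.Defs

/-! The embedding lemma (Step 4 of Theorem R), weighted, with a set `S0` embedded before.

PROOF.  Go through the times `i ∈ T` in increasing order; at time `i` let `N_i` be the set of the
vertices `v` not embedded so far for whose present history `i` is not bad, and `I_i` a maximal
independent subset of `N_i`; embed the vertices of `I_i` one after the other at time `i`.
STATE (`S` the embedded vertices, `S0 ⊆ S`, `φ`, times `t`, `t = 0` on `S0`): `φ` injective on `S`;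
for `v ∈ S \ S0`: `w (φ v) ≠ 0`, `φ v ∉ U`, `t v ∈ T`, `φ v ∈ A (t v)`; edges with both ends in
`S`, not both in `S0`: colour `c`; for `v ∉ S`: `Good (Δ - #(N v ∩ S)) (hist v)`.
STEP: `v ∈ I_i`, nothing adjacent to `v` is embedded at time `i`.  `mu (Cd … (hist v)) ≥
β mu (A i)`.  Avoid: `U` and the images (measure at most `|U| + n ≤ β mu (A i) / 2`), and for each of
the at most `Δ` neighbours `u ∉ S` of `v` (they have `#(N u ∩ S) ≤ Δ - 1`) the set of the `x ∈ A i`
with `¬ Good (Δ - #(N u ∩ S) - 1) (insert (i,x) (hist u))`, measure at most `ρ mu (A i)`, by `Good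
(s+1)`; `Δ ρ ≤ β / 4`.  All entries of `hist v` have times `< i` (time `0` or earlier in `T`).
COUNT: for `v` not embedded after time `i`: `#{j ∈ T | j ≤ i} ≤ #{j ∈ T | j ≤ i, j bad for hist v}
+ #(N v ∩ S)`: if `i` is bad it stays bad (`Cd` uses only entries of time `< i`); if not, `v ∈ N_i`
has a neighbour in `I_i` by maximality.  At the end: `#T ≤ (b - 1) + Δ`, impossible, as `Good 0`
follows from `Good s`.  -/

namespace Pool.Agent.H99.KR

open Finset Classical Pool.Agent.H21.Poly Pool.Agent.H21.Tile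

lemma Good.zero {α : Type*} {k : ℕ} {col : α → α → Fin k} {w : α → ℝ} {c : Fin k}
    {A : ℕ → Finset α} {β ρ : ℝ} {T : Finset ℕ} {b : ℕ} : ∀ {s : ℕ} {h : Finset (ℕ × α)},
    Good col w c A β ρ T b s h → Good col w c A β ρ T b 0 h
  | 0, _, h => h
  | _ + 1, _, h => Good.zero h.1

/-- A partial embedding with good histories. -/
structure StW {α : Type*} {k n : ℕ} (col : α → α → Fin k) (w : α → ℝ) (c : Fin k)
    (A : ℕ → Finset α) (β ρ : ℝ) (T : Finset ℕ) (b Δ : ℕ) (H : SimpleGraph (Fin n))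
    (S0 : Finset (Fin n)) (φ0 : Fin n → α) (U : Finset α) (T' : Finset ℕ)
    (E : Finset (Fin n)) (t : Fin n → ℕ) (φ : Fin n → α) : Prop where
  sub : S0 ⊆ E
  inj : Set.InjOn φ E
  st0 : ∀ v ∈ S0, φ v = φ0 v
  ti0 : ∀ v ∈ S0, t v = 0
  tim : ∀ v ∈ E, v ∉ S0 → t v ∈ T'
  mem : ∀ v ∈ E, v ∉ S0 → w (φ v) ≠ 0 ∧ φ v ∉ U ∧ φ v ∈ A (t v)
  adj : ∀ u ∈ E, ∀ v ∈ E, H.Adj u v → u ∉ S0 → col (φ u) (φ v) = c
  good : ∀ v, v ∉ E → Good col w c A β ρ T b (Δ - (E.filter (H.Adj v)).card) (hist H E t φ v)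

lemma histW_congr {α : Type*} {n : ℕ} (H : SimpleGraph (Fin n)) (φ φ' : Fin n → α)
    (t t' : Fin n → ℕ) (E : Finset (Fin n)) (v : Fin n) (h1 : ∀ x ∈ E, φ' x = φ x)
    (h2 : ∀ x ∈ E, t' x = t x) : hist H E t' φ' v = hist H E t φ v := by
  unfold hist
  apply image_congr
  intro u hu
  have hu2 : u ∈ E := (mem_filter.mp hu).1
  beta_reduce
  rw [h1 u hu2, h2 u hu2]

/-- Embedding one more vertex. -/
lemma stepW_one {α : Type*} {k n : ℕ} {col : α → α → Fin k} (hsymm : ∀ a b, col a b = col b a)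
    {w : α → ℝ} (hw0 : ∀ x, 0 ≤ w x) (hw1 : ∀ x, w x ≤ 1) {c : Fin k}
    {A : ℕ → Finset α} {β ρ : ℝ} {T : Finset ℕ} {b Δ : ℕ} {H : SimpleGraph (Fin n)}
    (hdeg : ∀ x, (univ.filter (H.Adj x)).card ≤ Δ)
    {S0 : Finset (Fin n)} {φ0 : Fin n → α} {U : Finset α} {T' : Finset ℕ}
    {E : Finset (Fin n)} {t : Fin n → ℕ} {φ : Fin n → α}
    (hst : StW col w c A β ρ T b Δ H S0 φ0 U T' E t φ) {i : ℕ} (hiT : i ∈ T) (hiT' : i ∈ T')
    (hrB : 0 ≤ ρ * mu w (A i))
    (hnum : (U.card : ℝ) + n + Δ * (ρ * mu w (A i)) < β * mu w (A i))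
    {v : Fin n} (hvE : v ∉ E) (hgood : ¬ Bd col w c A β i (hist H E t φ v))
    (hlt : ∀ u ∈ E, H.Adj v u → t u < i) :
    ∃ x, StW col w c A β ρ T b Δ H S0 φ0 U T' (insert v E) (Function.update t v i)
      (Function.update φ v x) := by
  obtain ⟨Cand, hCand⟩ : ∃ Cand, Cand = Cd col c A i (hist H E t φ v) := ⟨_, rfl⟩
  have hvS0 : v ∉ S0 := fun h => hvE (hst.sub h)
  have hCc : β * mu w (A i) ≤ mu w Cand := by
    unfold Bd at hgood
    push Not at hgood
    rw [hCand]
    exact hgood
  have hr : ∀ u, u ∉ E → H.Adj v u → (E.filter (H.Adj u)).card + 1 ≤ Δ := by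
    intro u huE hvu
    refine le_trans ?_ (hdeg u)
    have : insert v (E.filter (H.Adj u)) ⊆ univ.filter (H.Adj u) := by
      intro u' hu'
      rw [mem_insert] at hu'
      rw [mem_filter]
      rcases hu' with hu' | hu'
      · exact ⟨mem_univ _, by rw [hu']; exact hvu.symm⟩
      · exact ⟨mem_univ _, (mem_filter.mp hu').2⟩
    have h2 := card_le_card this
    rw [card_insert_of_notMem (fun h => hvE (mem_filter.mp h).1)] at h2
    exact h2
  obtain ⟨Fw, hFw⟩ : ∃ Fw : Fin n → Finset α, Fw = fun u => (A i).filter (fun x =>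
    ¬ Good col w c A β ρ T b (Δ - (E.filter (H.Adj u)).card - 1)
      (insert (i, x) (hist H E t φ u))) := ⟨_, rfl⟩
  have hFc : ∀ u ∈ univ.filter (fun u => H.Adj v u ∧ u ∉ E), mu w (Fw u) ≤
      ρ * mu w (A i) := by
    intro u hu
    rw [mem_filter] at hu
    obtain ⟨-, hvu, huE⟩ := hu
    have h1 := hr u huE hvu
    have h2 := hst.good u huE
    obtain ⟨s, hs⟩ : ∃ s, Δ - (E.filter (H.Adj u)).card = s + 1 :=
      ⟨Δ - (E.filter (H.Adj u)).card - 1, by omega⟩
    rw [hs] at h2
    have h3 := h2.2 i (mem_insert_of_mem hiT)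
    rw [hFw]
    beta_reduce
    rw [hs, Nat.add_sub_cancel]
    exact h3
  have hmuc : ∀ Q : Finset α, mu w Q ≤ Q.card := by
    intro Q
    unfold mu
    calc ∑ x ∈ Q, w x ≤ ∑ x ∈ Q, (1:ℝ) := sum_le_sum (fun x _ => hw1 x)
      _ = Q.card := by rw [sum_const, nsmul_eq_mul, mul_one]
  have hmuu : ∀ Q Q' : Finset α, mu w (Q ∪ Q') ≤ mu w Q + mu w Q' := by
    intro Q Q'
    unfold mu
    rw [← sum_union_inter]
    have : 0 ≤ ∑ x ∈ Q ∩ Q', w x := sum_nonneg (fun x _ => hw0 x)
    linarith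
  obtain ⟨Forb, hForb⟩ : ∃ Forb, Forb = (U ∪ E.image φ) ∪
    (univ.filter (fun u => H.Adj v u ∧ u ∉ E)).biUnion Fw := ⟨_, rfl⟩
  have hFoc : mu w Forb ≤ (U.card : ℝ) + n + Δ * (ρ * mu w (A i)) := by
    have h1 : mu w Forb ≤ mu w U + mu w (E.image φ) +
        mu w ((univ.filter (fun u => H.Adj v u ∧ u ∉ E)).biUnion Fw) := by
      rw [hForb]
      have e1 := hmuu (U ∪ E.image φ) ((univ.filter (fun u => H.Adj v u ∧ u ∉ E)).biUnion Fw)
      have e2 := hmuu U (E.image φ)
      linarith
    have h2 : ((E.image φ).card : ℝ) ≤ n := by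
      have := (card_image_le (s := E) (f := φ)).trans (card_le_univ E)
      rw [Fintype.card_fin] at this
      exact_mod_cast this
    have h3 : mu w ((univ.filter (fun u => H.Adj v u ∧ u ∉ E)).biUnion Fw) ≤
        ∑ u ∈ univ.filter (fun u => H.Adj v u ∧ u ∉ E), mu w (Fw u) := by
      have gen : ∀ I : Finset (Fin n), mu w (I.biUnion Fw) ≤ ∑ u ∈ I, mu w (Fw u) := by
        intro I
        induction I using Finset.induction_on with
        | empty => simp [mu]
        | insert u I hu ih =>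
          rw [biUnion_insert, sum_insert hu]
          have := hmuu (Fw u) (I.biUnion Fw)
          linarith
      exact gen _
    have h4 : ∑ u ∈ univ.filter (fun u => H.Adj v u ∧ u ∉ E), mu w (Fw u) ≤
        ∑ u ∈ univ.filter (fun u => H.Adj v u ∧ u ∉ E), ρ * mu w (A i) := sum_le_sum hFc
    rw [sum_const, nsmul_eq_mul] at h4
    have h5 : ((univ.filter (fun u => H.Adj v u ∧ u ∉ E)).card : ℝ) ≤ Δ := by
      have h6 : univ.filter (fun u => H.Adj v u ∧ u ∉ E) ⊆ univ.filter (H.Adj v) := by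
        intro u hu
        rw [mem_filter] at hu ⊢
        exact ⟨hu.1, hu.2.1⟩
      exact_mod_cast (card_le_card h6).trans (hdeg v)
    have h7 := mul_le_mul_of_nonneg_right h5 hrB
    have h8 := hmuc U
    have h9 := hmuc (E.image φ)
    linarith
  obtain ⟨x, hxC, hxF, hxw⟩ : ∃ x ∈ Cand, x ∉ Forb ∧ w x ≠ 0 := by
    by_contra hcon
    push Not at hcon
    have h1 : mu w Cand ≤ mu w Forb := by
      have e1 : mu w Cand = mu w (Cand.filter (fun x => x ∈ Forb)) +
          mu w (Cand.filter (fun x => ¬ x ∈ Forb)) := by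
        unfold mu
        exact (sum_filter_add_sum_filter_not Cand _ _).symm
      have e2 : mu w (Cand.filter (fun x => ¬ x ∈ Forb)) = 0 := by
        unfold mu
        apply sum_eq_zero
        intro x hx
        rw [mem_filter] at hx
        exact hcon x hx.1 hx.2
      have e3 : mu w (Cand.filter (fun x => x ∈ Forb)) ≤ mu w Forb := by
        apply sum_le_sum_of_subset_of_nonneg
        · intro x hx
          exact (mem_filter.mp hx).2
        · intro x _ _
          exact hw0 x
      linarith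
    linarith
  rw [hForb, mem_union, mem_union, not_or, not_or] at hxF
  rw [hCand] at hxC
  unfold Cd at hxC
  rw [mem_filter] at hxC
  obtain ⟨hxB, hxrel⟩ := hxC
  obtain ⟨⟨hxU, hxE⟩, hxG⟩ := hxF
  have hne : ∀ u ∈ E, u ≠ v := fun u hu h => hvE (h ▸ hu)
  have hφE : ∀ u ∈ E, Function.update φ v x u = φ u := fun u hu =>
    Function.update_of_ne (hne u hu) _ _
  have hτE : ∀ u ∈ E, Function.update t v i u = t u := fun u hu =>
    Function.update_of_ne (hne u hu) _ _
  have hrelv : ∀ y ∈ E, H.Adj v y → col x (φ y) = c := by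
    intro y hy hvy
    apply hxrel (t y, φ y) _ (hlt y hy hvy)
    exact mem_image_of_mem (fun u => (t u, φ u)) (mem_filter.mpr ⟨hy, hvy⟩)
  refine ⟨x, ⟨?_, ?_, ?_, ?_, ?_, ?_, ?_, ?_⟩⟩
  · exact hst.sub.trans (subset_insert v E)
  · intro u hu u' hu' huu
    rw [mem_coe, mem_insert] at hu hu'
    rcases hu with hu | hu
    · rcases hu' with hu' | hu'
      · rw [hu, hu']
      · rw [hu, Function.update_self, hφE u' hu'] at huu
        exact absurd (mem_image.mpr ⟨u', hu', huu.symm⟩) hxE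
    · rcases hu' with hu' | hu'
      · rw [hu', Function.update_self, hφE u hu] at huu
        exact absurd (mem_image.mpr ⟨u, hu, huu⟩) hxE
      · rw [hφE u hu, hφE u' hu'] at huu
        exact hst.inj hu hu' huu
  · intro u hu
    rw [hφE u (hst.sub hu)]
    exact hst.st0 u hu
  · intro u hu
    rw [hτE u (hst.sub hu)]
    exact hst.ti0 u hu
  · intro u hu huS0
    rw [mem_insert] at hu
    rcases hu with hu | hu
    · rw [hu, Function.update_self]; exact hiT'
    · rw [hτE u hu]; exact hst.tim u hu huS0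
  · intro u hu huS0
    rw [mem_insert] at hu
    rcases hu with hu | hu
    · rw [hu, Function.update_self, Function.update_self]; exact ⟨hxw, hxU, hxB⟩
    · rw [hτE u hu, hφE u hu]; exact hst.mem u hu huS0
  · intro u hu u' hu' huu huS0
    rw [mem_insert] at hu hu'
    rcases hu with hu | hu
    · rcases hu' with hu' | hu'
      · rw [hu, hu'] at huu
        exact absurd rfl huu.ne
      · rw [hu] at huu ⊢
        rw [Function.update_self, hφE u' hu']
        exact hrelv u' hu' huu
    · rcases hu' with hu' | hu'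
      · rw [hu'] at huu ⊢
        rw [Function.update_self, hφE u hu, hsymm]
        exact hrelv u hu huu.symm
      · rw [hφE u hu, hφE u' hu']
        exact hst.adj u hu u' hu' huu huS0
  · intro u hu
    rw [mem_insert, not_or] at hu
    obtain ⟨huv, huE⟩ := hu
    by_cases hadj : H.Adj u v
    · have h1 : (insert v E).filter (H.Adj u) = insert v (E.filter (H.Adj u)) := by
        rw [filter_insert, if_pos hadj]
      have h2 : hist H (insert v E) (Function.update t v i) (Function.update φ v x) u =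
          insert (i, x) (hist H E t φ u) := by
        rw [← histW_congr H φ (Function.update φ v x) t (Function.update t v i) E u hφE hτE]
        unfold hist
        rw [h1, image_insert, Function.update_self, Function.update_self]
      rw [h2, h1, card_insert_of_notMem (fun h => hvE (mem_filter.mp h).1), ← Nat.sub_sub]
      by_contra hcon
      apply hxG
      rw [mem_biUnion]
      refine ⟨u, mem_filter.mpr ⟨mem_univ _, hadj.symm, huE⟩, ?_⟩
      rw [hFw]
      exact mem_filter.mpr ⟨hxB, hcon⟩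
    · have h1 : (insert v E).filter (H.Adj u) = E.filter (H.Adj u) := by
        rw [filter_insert, if_neg hadj]
      have h2 : hist H (insert v E) (Function.update t v i) (Function.update φ v x) u =
          hist H E t φ u := by
        rw [← histW_congr H φ (Function.update φ v x) t (Function.update t v i) E u hφE hτE]
        unfold hist
        rw [h1]
      rw [h2, h1]
      exact hst.good u huE

/-- Embedding an independent set at one time. -/
lemma stepW_set {α : Type*} {k n : ℕ} {col : α → α → Fin k} (hsymm : ∀ a b, col a b = col b a)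
    {w : α → ℝ} (hw0 : ∀ x, 0 ≤ w x) (hw1 : ∀ x, w x ≤ 1) {c : Fin k}
    {A : ℕ → Finset α} {β ρ : ℝ} {T : Finset ℕ} {b Δ : ℕ} {H : SimpleGraph (Fin n)}
    (hdeg : ∀ x, (univ.filter (H.Adj x)).card ≤ Δ)
    {S0 : Finset (Fin n)} {φ0 : Fin n → α} {U : Finset α} {T' : Finset ℕ}
    {E : Finset (Fin n)} {t : Fin n → ℕ} {φ : Fin n → α}
    (hst : StW col w c A β ρ T b Δ H S0 φ0 U T' E t φ) {i : ℕ} (hi0 : 0 < i) (hiT : i ∈ T)
    (hT'i : ∀ j ∈ T', j < i) (hrB : 0 ≤ ρ * mu w (A i))
    (hnum : (U.card : ℝ) + n + Δ * (ρ * mu w (A i)) < β * mu w (A i)) (J : Finset (Fin n)) :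
    Disjoint E J → (∀ u ∈ J, ∀ v ∈ J, ¬ H.Adj u v) →
    (∀ v ∈ J, ¬ Bd col w c A β i (hist H E t φ v)) →
    ∃ (t' : Fin n → ℕ) (φ' : Fin n → α),
      StW col w c A β ρ T b Δ H S0 φ0 U (insert i T') (E ∪ J) t' φ' ∧
      (∀ x ∈ E, φ' x = φ x) ∧ (∀ x ∈ E, t' x = t x) ∧ ∀ x ∈ J, t' x = i := by
  induction J using Finset.induction_on with
  | empty =>
    intro _ _ _
    refine ⟨t, φ, ?_, fun _ _ => rfl, fun _ _ => rfl, by simp⟩
    rw [union_empty]
    exact ⟨hst.sub, hst.inj, hst.st0, hst.ti0, fun x hx hx0 => mem_insert_of_mem (hst.tim x hx hx0),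
      hst.mem, hst.adj, hst.good⟩
  | insert v J hvJ ih =>
    intro hEJ hind hbd
    obtain ⟨t1, φ1, hst1, h1, h2, h3⟩ := ih
      (disjoint_of_subset_right (subset_insert v J) hEJ)
      (fun u hu u' hu' => hind u (mem_insert_of_mem hu) u' (mem_insert_of_mem hu'))
      (fun u hu => hbd u (mem_insert_of_mem hu))
    have hvE : v ∉ E := fun h => (disjoint_left.mp hEJ h) (mem_insert_self v J)
    have hN : (E ∪ J).filter (H.Adj v) = E.filter (H.Adj v) := by
      ext u
      rw [mem_filter, mem_filter, mem_union]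
      constructor
      · rintro ⟨hu | hu, huv⟩
        · exact ⟨hu, huv⟩
        · exact absurd huv (hind v (mem_insert_self v J) u (mem_insert_of_mem hu))
      · rintro ⟨hu, huv⟩
        exact ⟨Or.inl hu, huv⟩
    have hh : hist H (E ∪ J) t1 φ1 v = hist H E t φ v := by
      rw [← histW_congr H φ φ1 t t1 E v h1 h2]
      unfold hist
      rw [hN]
    obtain ⟨x, hx⟩ := stepW_one hsymm hw0 hw1 hdeg hst1 (v := v) hiT (mem_insert_self i T') hrB
      hnum (by
        rw [mem_union, not_or]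
        exact ⟨hvE, hvJ⟩) (by
        rw [hh]
        exact hbd v (mem_insert_self v J)) (by
        intro u hu huv
        rw [mem_union] at hu
        rcases hu with hu | hu
        · rw [h2 u hu]
          by_cases hu0 : u ∈ S0
          · rw [hst.ti0 u hu0]; exact hi0
          · exact hT'i _ (hst.tim u hu hu0)
        · exact absurd huv (hind v (mem_insert_self v J) u (mem_insert_of_mem hu)))
    refine ⟨Function.update t1 v i, Function.update φ1 v x, ?_, ?_, ?_, ?_⟩
    rotate_left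
    · intro u hu
      have hne : u ≠ v := fun h => hvE (h ▸ hu)
      rw [Function.update_of_ne hne]
      exact h1 u hu
    · intro u hu
      have hne : u ≠ v := fun h => hvE (h ▸ hu)
      rw [Function.update_of_ne hne]
      exact h2 u hu
    · intro u hu
      rw [mem_insert] at hu
      rcases hu with hu | hu
      · rw [hu, Function.update_self]
      · have hne : u ≠ v := fun h => hvJ (h ▸ hu)
        rw [Function.update_of_ne hne]
        exact h3 u hu
    · rw [union_insert]
      exact hx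

/-- A maximal independent subset. -/
lemma max_indepW {X : Type*} (H : SimpleGraph X) (W : Finset X) :
    ∃ I ⊆ W, (∀ u ∈ I, ∀ v ∈ I, ¬ H.Adj u v) ∧ ∀ w ∈ W, w ∉ I → ∃ u ∈ I, H.Adj w u := by
  obtain ⟨Pr, hPr⟩ : ∃ Pr : Finset X → Prop, ∀ I, Pr I ↔ ∀ u ∈ I, ∀ v ∈ I, ¬ H.Adj u v :=
    ⟨fun I => ∀ u ∈ I, ∀ v ∈ I, ¬ H.Adj u v, fun _ => Iff.rfl⟩
  obtain ⟨I, hI, hmax⟩ := exists_max_image (W.powerset.filter Pr) (fun I => I.card)
    ⟨∅, by
      rw [mem_filter, mem_powerset, hPr]
      exact ⟨empty_subset _, by simp⟩⟩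
  rw [mem_filter, mem_powerset, hPr] at hI
  refine ⟨I, hI.1, hI.2, ?_⟩
  intro w hw hwI
  by_contra hcon
  push Not at hcon
  have h1 := hmax (insert w I) (by
    rw [mem_filter, mem_powerset, hPr]
    constructor
    · intro u hu
      rw [mem_insert] at hu
      rcases hu with hu | hu
      · rw [hu]; exact hw
      · exact hI.1 hu
    · intro u hu v hv
      rw [mem_insert] at hu hv
      rcases hu with hu | hu
      · rcases hv with hv | hv
        · rw [hu, hv]; exact fun h => h.ne rfl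
        · rw [hu]; exact hcon v hv
      · rcases hv with hv | hv
        · rw [hv]; exact fun h => hcon u hu h.symm
        · exact hI.2 u hu v hv)
  rw [card_insert_of_notMem hwI] at h1
  omega

/-- Partial embeddings, with the count of times. -/
lemma embW_times {α : Type*} {k n : ℕ} {col : α → α → Fin k} (hsymm : ∀ a b, col a b = col b a)
    {w : α → ℝ} (hw0 : ∀ x, 0 ≤ w x) (hw1 : ∀ x, w x ≤ 1) {c : Fin k}
    {A : ℕ → Finset α} {β ρ : ℝ} {T : Finset ℕ} {b Δ : ℕ} {H : SimpleGraph (Fin n)}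
    (hdeg : ∀ x, (univ.filter (H.Adj x)).card ≤ Δ)
    {S0 : Finset (Fin n)} {φ0 : Fin n → α} {U : Finset α} (hφ0 : Set.InjOn φ0 S0)
    (hcol0 : ∀ u ∈ S0, ∀ v ∈ S0, H.Adj u v → u ∉ S0 → col (φ0 u) (φ0 v) = c)
    (hgood : ∀ v ∉ S0, Good col w c A β ρ T b (Δ - (S0.filter (H.Adj v)).card)
        (hist H S0 (fun _ => 0) φ0 v))
    (hT0 : ∀ i ∈ T, 0 < i)
    (hrB : ∀ i ∈ T, 0 ≤ ρ * mu w (A i))
    (hnum : ∀ i ∈ T, (U.card : ℝ) + n + Δ * (ρ * mu w (A i)) < β * mu w (A i))
    (T' : Finset ℕ) : T' ⊆ T →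
    ∃ (E : Finset (Fin n)) (t : Fin n → ℕ) (φ : Fin n → α),
      StW col w c A β ρ T b Δ H S0 φ0 U T' E t φ ∧
      ∀ v, v ∉ E → T'.card ≤ (T'.filter (fun i => Bd col w c A β i (hist H E t φ v))).card +
        (E.filter (H.Adj v)).card := by
  induction T' using Finset.induction_on_max with
  | empty =>
    intro _
    refine ⟨S0, fun _ => 0, φ0, ⟨subset_rfl, hφ0, fun _ _ => rfl, fun _ _ => rfl, ?_, ?_,
      hcol0, hgood⟩, by simp⟩
    · intro v hv hv0
      exact absurd hv hv0
    · intro v hv hv0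
      exact absurd hv hv0
  | insert a T' hlt ih =>
    intro hT'
    obtain ⟨E, t, φ, hst, hcnt⟩ := ih (fun j hj => hT' (mem_insert_of_mem hj))
    have haT : a ∈ T := hT' (mem_insert_self a T')
    obtain ⟨I, hIW, hind, hmax⟩ := max_indepW H
      ((univ \ E).filter (fun v => ¬ Bd col w c A β a (hist H E t φ v)))
    have hIE : ∀ u ∈ I, u ∉ E := fun u hu => (mem_sdiff.mp (mem_filter.mp (hIW hu)).1).2
    obtain ⟨t', φ', hst', h1, h2, h3⟩ := stepW_set hsymm hw0 hw1 hdeg hst (hT0 a haT) haT hlt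
      (hrB a haT) (hnum a haT) I (disjoint_right.mpr hIE) hind
      (fun v hv => (mem_filter.mp (hIW hv)).2)
    refine ⟨E ∪ I, t', φ', hst', ?_⟩
    intro v hvE
    rw [mem_union, not_or] at hvE
    have hc := hcnt v hvE.1
    have haT' : a ∉ T' := fun h => lt_irrefl a (hlt a h)
    have hbd : ∀ j, j ≤ a → (Bd col w c A β j (hist H (E ∪ I) t' φ' v) ↔
        Bd col w c A β j (hist H E t φ v)) := by
      intro j hja
      have hiff : Cd col c A j (hist H (E ∪ I) t' φ' v) = Cd col c A j (hist H E t φ v) := by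
        unfold Cd
        apply filter_congr
        intro y _
        constructor
        · intro h p hp hpj
          obtain ⟨u, hu, hup⟩ := mem_image.mp hp
          rw [mem_filter] at hu
          apply h p _ hpj
          refine mem_image.mpr ⟨u, mem_filter.mpr ⟨mem_union_left _ hu.1, hu.2⟩, ?_⟩
          rw [h1 u hu.1, h2 u hu.1]
          exact hup
        · intro h p hp hpj
          obtain ⟨u, hu, hup⟩ := mem_image.mp hp
          rw [mem_filter, mem_union] at hu
          obtain ⟨hu | hu, huw⟩ := hu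
          · apply h p _ hpj
            refine mem_image.mpr ⟨u, mem_filter.mpr ⟨hu, huw⟩, ?_⟩
            rw [h1 u hu, h2 u hu] at hup
            exact hup
          · exfalso
            have h4 : p.1 = a := by
              rw [← hup]
              exact h3 u hu
            omega
      unfold Bd
      rw [hiff]
    have hf : T'.filter (fun i => Bd col w c A β i (hist H (E ∪ I) t' φ' v)) =
        T'.filter (fun i => Bd col w c A β i (hist H E t φ v)) :=
      filter_congr (fun j hj => hbd j (hlt j hj).le)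
    have hsubs : E.filter (H.Adj v) ⊆ (E ∪ I).filter (H.Adj v) := by
      intro u hu
      rw [mem_filter] at hu ⊢
      exact ⟨mem_union_left _ hu.1, hu.2⟩
    rw [card_insert_of_notMem haT', filter_insert]
    by_cases hb : Bd col w c A β a (hist H E t φ v)
    · rw [if_pos ((hbd a le_rfl).mpr hb), card_insert_of_notMem (fun h => haT' (mem_filter.mp h).1),
        hf]
      have := card_le_card hsubs
      omega
    · rw [if_neg (fun h => hb ((hbd a le_rfl).mp h)), hf]
      obtain ⟨u, hu, huw⟩ := hmax v (mem_filter.mpr ⟨mem_sdiff.mpr ⟨mem_univ v, hvE.1⟩, hb⟩) hvE.2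
      have h5 : insert u (E.filter (H.Adj v)) ⊆ (E ∪ I).filter (H.Adj v) := by
        intro u' hu'
        rw [mem_insert] at hu'
        rcases hu' with hu' | hu'
        · rw [hu']
          exact mem_filter.mpr ⟨mem_union_right _ hu, huw⟩
        · exact hsubs hu'
      have h6 := card_le_card h5
      rw [card_insert_of_notMem (fun h => hIE u hu (mem_filter.mp h).1)] at h6
      omega

theorem emb_lemma {α : Type*} [Fintype α] [Nonempty α] {k : ℕ} (col : α → α → Fin k)
    (hsymm : ∀ a b, col a b = col b a) (w : α → ℝ) (hw0 : ∀ x, 0 ≤ w x) (hw1 : ∀ x, w x ≤ 1)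
    (Δ P b L a : ℕ) (A : ℕ → Finset α) (hA : ∀ i j, i ≤ j → A i ⊆ A j) (c : Fin k) (T : Finset ℕ)
    (hT : T ⊆ Icc 1 P) (hTc : b + Δ ≤ T.card) (hAT : ∀ i ∈ T, 0 < mu w (A i))
    (ha : (Δ : ℝ) * (1 / 2) ^ a ≤ (1 / 2) ^ (L + 2)) :
    EmbLemma col w Δ P b L a A c T := by
  intro n H hdeg S0 φ0 U hφ0 hgood hnum
  have hrB : ∀ i ∈ T, 0 ≤ (1 / 2 : ℝ) ^ a * mu w (A i) := fun i hi =>
    mul_nonneg (by positivity) (hAT i hi).le
  have hnum2 : ∀ i ∈ T, (U.card : ℝ) + n + Δ * ((1 / 2 : ℝ) ^ a * mu w (A i)) <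
      (1 / 2) ^ L * mu w (A i) := by
    intro i hi
    have h1 := hnum i hi
    have h2 : (Δ : ℝ) * ((1 / 2 : ℝ) ^ a * mu w (A i)) ≤ (1 / 2) ^ (L + 2) * mu w (A i) := by
      rw [← mul_assoc]
      exact mul_le_mul_of_nonneg_right ha (hAT i hi).le
    have h3 : (0:ℝ) < (1 / 2) ^ L * mu w (A i) := mul_pos (by positivity) (hAT i hi)
    have h4 : ((1:ℝ) / 2) ^ (L + 1) * mu w (A i) = 1 / 2 * ((1 / 2) ^ L * mu w (A i)) := by
      rw [pow_succ]; ring
    have h5 : ((1:ℝ) / 2) ^ (L + 2) * mu w (A i) = 1 / 4 * ((1 / 2) ^ L * mu w (A i)) := by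
      rw [pow_add]; ring
    rw [h4] at h1
    rw [h5] at h2
    linarith
  obtain ⟨E, t, φ, hst, hcnt⟩ := embW_times hsymm hw0 hw1 hdeg hφ0
    (fun u hu _ _ _ hu0 => absurd hu hu0) hgood (fun i hi => (mem_Icc.mp (hT hi)).1) hrB hnum2 T
    subset_rfl
  have hE : ∀ v, v ∈ E := by
    intro v
    by_contra hvE
    have h1 := hcnt v hvE
    have h2 : (T.filter (fun i => Bd col w c A ((1 / 2) ^ L) i (hist H E t φ v))).card < b :=
      Good.zero (hst.good v hvE)
    have h4 : (E.filter (H.Adj v)).card ≤ Δ :=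
      (card_le_card (filter_subset_filter _ (subset_univ E))).trans (hdeg v)
    omega
  refine ⟨φ, ?_, hst.st0, ?_, ?_⟩
  · intro u v huv
    exact hst.inj (mem_coe.mpr (hE u)) (mem_coe.mpr (hE v)) huv
  · intro v hv
    obtain ⟨h1, h2, h3⟩ := hst.mem v (hE v) hv
    exact ⟨h1, h2, t v, hst.tim v (hE v) hv, h3⟩
  · intro u v huv hu
    exact hst.adj u (hE u) v (hE v) huv hu

end Pool.Agent.H99.KR
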