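import Pool.Agent.H99.KR.Defs
import Pool.Agent.H21.Poly.FlexDef
import Pool.Agent.H80.RR.Flx

/-! Copies of linear size (Theorem R) and flexible sets, from helper80's `H80/RR/Flx`. -/

namespace Pool.Agent.H99.KR

open Finset Classical Pool.Agent.H21.Poly Pool.Agent.H21.Tile

theorem lin_flex (k : ℕ) (hk : 0 < k) : ∃ K0 F0 : ℕ, ∀ Δ : ℕ, 1 ≤ Δ →
    ∀ {α : Type} [Fintype α] [Nonempty α]
    (F : (r : ℕ) → SimpleGraph (Fin r)), (∀ r x, (univ.filter ((F r).Adj x)).card ≤ Δ) →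
    ∀ (col : α → α → Fin k), (∀ a b, col a b = col b a) →
    ∃ K : ℕ, 0 < K ∧ K ≤ 2 ^ (K0 * Δ) ∧ LinRam F col K ∧
      ∃ σF : ℝ, (1 / 2) ^ (2 ^ (F0 * Δ)) ≤ σF ∧ FlexProp F col K σF := by
  obtain ⟨C, hC⟩ := Pool.Agent.H80.RR.lin_flex k hk
  refine ⟨C, C, fun Δ hΔ α _ _ F hdeg col hsymm => ?_⟩
  obtain ⟨h1, h2⟩ := hC Δ hΔ F hdeg col hsymm
  exact ⟨2 ^ (C * Δ), by positivity, le_rfl, h1, _, le_rfl, h2⟩

end Pool.Agent.H99.KR
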