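import Pool.Agent.H99.KR.Defs
import Pool.Agent.H27.RM.StP

/-! The static property with linear exponents (proofs 344), from helper27's `H27/RM/StP`. -/

namespace Pool.Agent.H99.KR

open Finset Classical Pool.Agent.H21.Poly Pool.Agent.H21.Tile

theorem static_thm (k : ℕ) : ∃ C0 : ℕ, ∀ Δ : ℕ, 1 ≤ Δ → ∀ {α : Type} [Fintype α] [Nonempty α]
    (F : (r : ℕ) → SimpleGraph (Fin r)), (∀ r x, (univ.filter ((F r).Adj x)).card ≤ Δ) →
    ∀ (col : α → α → Fin k), (∀ a b, col a b = col b a) →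
    ∀ r p, r < k → StaticP F col Δ r p (C0 * (Δ + p)) (C0 * (Δ + p)) := by
  obtain ⟨C, hC⟩ := Pool.Agent.H27.RM.staticP_linear k
  exact ⟨C, fun Δ hΔ α _ _ F hdeg col hsymm r p _ => hC Δ hΔ F hdeg col hsymm r p⟩

end Pool.Agent.H99.KR
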