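import Pool.Agent.H99.KR.Count
import Pool.Agent.H99.KR.StaticThm
import Pool.Agent.H99.KR.LinFlex
import Pool.Agent.H21.Poly.Copy

/-! The partition theorem: at most `2 ^ (C Δ)` parts for every number of colours. -/

namespace Pool.Agent.H99.KR

open Finset Classical Pool.Agent.H21.Poly Pool.Agent.H21.Tile

theorem partition_main (k : ℕ) : ∃ C : ℕ, ∀ (Δ : ℕ) (F : (r : ℕ) → SimpleGraph (Fin r)), 1 ≤ Δ →
    (∀ r v, ((F r).neighborSet v).ncard ≤ Δ) → ∀ (N : ℕ) (c : Sym2 (Fin N) → Fin k),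
      ∃ P : Finpartition (univ : Finset (Fin N)),
        P.parts.card ≤ 2 ^ (C * Δ) ∧ ∀ S ∈ P.parts, HasMonoCopy F c S := by
  rcases Nat.eq_zero_or_pos k with hk | hk
  · subst hk
    refine ⟨0, fun Δ F _ _ N c => ?_⟩
    obtain ⟨P, hP1, hP2⟩ := to_partition (m := 2 ^ (0 * Δ)) F c (fun hN =>
      (c s(⟨0, hN⟩, ⟨0, hN⟩)).elim0)
    exact ⟨P, hP1, hP2⟩
  obtain ⟨C0, hC0⟩ := static_thm k
  obtain ⟨K0, F0, hKF⟩ := lin_flex k hk
  obtain ⟨C, hC⟩ := count_tiles k hk C0 K0 F0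
  refine ⟨C, fun Δ F hΔ hdeg N c => ?_⟩
  obtain ⟨P, hP1, hP2⟩ := to_partition (m := 2 ^ (C * Δ)) F c (by
    intro hN
    have : Nonempty (Fin N) := ⟨⟨0, hN⟩⟩
    have hdeg' := deg_filter F hdeg
    have hdeg2 : ∀ r x, (univ.filter ((F r).Adj x)).card ≤ Δ := fun r x => by
      convert hdeg' r x
    have hsymm : ∀ a b : Fin N, c s(a, b) = c s(b, a) := fun a b => by rw [Sym2.eq_swap]
    obtain ⟨K, h1, h2, h3, σF, h4, h5⟩ := hKF Δ hΔ F hdeg2 (fun a b => c s(a, b)) hsymm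
    exact hC Δ hΔ F (fun a b => c s(a, b)) hsymm (hC0 Δ hΔ F hdeg2 _ hsymm) K h1 h2 h3 σF h4 h5
      univ)
  exact ⟨P, hP1, hP2⟩

end Pool.Agent.H99.KR
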